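import Pool.Agent.Work.MP_605a0d_an.TreeMeasure

/-!
# MP_605a0d_an : the total variation of a difference of two finite measures
-/

set_option autoImplicit false

namespace Pool.Agent.Work.MP_605a0d_an

open Filter MeasureTheory Set

/-- total variation -/
theorem exists_abs {α : Type*} [MeasurableSpace α] (μ ν : Measure α) [IsFiniteMeasure μ]
    [IsFiniteMeasure ν] : ∃ τ : Measure α, IsFiniteMeasure τ ∧
      (∀ B, MeasurableSet B → |μ.real B - ν.real B| ≤ τ.real B) ∧
      (∀ B, MeasurableSet B → (∀ B', MeasurableSet B' → B' ⊆ B → μ B' = ν B') → τ B = 0) := by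
  obtain ⟨P, hP, h1, h2⟩ := hahn_decomposition μ ν
  have hle1 : ν.restrict P ≤ μ.restrict P := by
    rw [Measure.le_iff]
    intro s hs
    rw [Measure.restrict_apply hs, Measure.restrict_apply hs]
    exact h1 _ (hs.inter hP) inter_subset_right
  have hle2 : μ.restrict Pᶜ ≤ ν.restrict Pᶜ := by
    rw [Measure.le_iff]
    intro s hs
    rw [Measure.restrict_apply hs, Measure.restrict_apply hs]
    exact h2 _ (hs.inter hP.compl) inter_subset_right
  have hτ : ∀ B, MeasurableSet B →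
      ((μ.restrict P - ν.restrict P) + (ν.restrict Pᶜ - μ.restrict Pᶜ)) B =
        (μ (B ∩ P) - ν (B ∩ P)) + (ν (B ∩ Pᶜ) - μ (B ∩ Pᶜ)) := by
    intro B hB
    rw [Measure.add_apply, Measure.sub_apply hB hle1, Measure.sub_apply hB hle2,
      Measure.restrict_apply hB, Measure.restrict_apply hB, Measure.restrict_apply hB,
      Measure.restrict_apply hB]
  refine ⟨(μ.restrict P - ν.restrict P) + (ν.restrict Pᶜ - μ.restrict Pᶜ), inferInstance, ?_, ?_⟩
  · intro B hB
    have e1 : μ.real B = μ.real (B ∩ P) + μ.real (B ∩ Pᶜ) := by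
      rw [← measureReal_inter_add_sdiff (μ := μ) (s := B) hP, sdiff_eq]
    have e2 : ν.real B = ν.real (B ∩ P) + ν.real (B ∩ Pᶜ) := by
      rw [← measureReal_inter_add_sdiff (μ := ν) (s := B) hP, sdiff_eq]
    have i1 : ν (B ∩ P) ≤ μ (B ∩ P) := h1 _ (hB.inter hP) inter_subset_right
    have i2 : μ (B ∩ Pᶜ) ≤ ν (B ∩ Pᶜ) := h2 _ (hB.inter hP.compl) inter_subset_right
    have i1' : ν.real (B ∩ P) ≤ μ.real (B ∩ P) := ENNReal.toReal_mono (measure_ne_top _ _) i1
    have i2' : μ.real (B ∩ Pᶜ) ≤ ν.real (B ∩ Pᶜ) := ENNReal.toReal_mono (measure_ne_top _ _) i2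
    have e3 : ((μ.restrict P - ν.restrict P) + (ν.restrict Pᶜ - μ.restrict Pᶜ)).real B =
        (μ.real (B ∩ P) - ν.real (B ∩ P)) + (ν.real (B ∩ Pᶜ) - μ.real (B ∩ Pᶜ)) := by
      rw [Measure.real, hτ B hB, ENNReal.toReal_add, ENNReal.toReal_sub_of_le i1 (measure_ne_top _ _),
        ENNReal.toReal_sub_of_le i2 (measure_ne_top _ _)]
      · rfl
      · exact ne_top_of_le_ne_top (measure_ne_top μ (B ∩ P)) tsub_le_self
      · exact ne_top_of_le_ne_top (measure_ne_top ν (B ∩ Pᶜ)) tsub_le_self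
    rw [e3, e1, e2, abs_le]
    constructor <;> linarith
  · intro B hB h
    rw [hτ B hB, h _ (hB.inter hP) inter_subset_left, h _ (hB.inter hP.compl) inter_subset_left,
      tsub_self, tsub_self, add_zero]

end Pool.Agent.Work.MP_605a0d_an
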