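import Pool.Agent.Work.MP_605a0d_an.Defs

/-!
# MP_605a0d_an : a weak* Schauder basis forces separability
-/

set_option autoImplicit false

namespace Pool.Agent.Work.MP_605a0d_an

open Filter Topology

variable {𝕜 : Type*} [RCLike 𝕜] {E : Type*} [NormedAddCommGroup E] [NormedSpace 𝕜 E]

lemma tendsto_weak_iff (g : ℕ → WeakDual 𝕜 E) (f : WeakDual 𝕜 E) :
    Tendsto g atTop (𝓝 f) ↔ ∀ x : E, Tendsto (fun N => g N x) atTop (𝓝 (f x)) :=
  tendsto_iff_forall_eval_tendsto_topDualPairing

lemma coeff_spec {h : ℕ → WeakDual 𝕜 E} (hh : IsWeakStarBasis 𝕜 h) (f : WeakDual 𝕜 E) :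
    Tendsto (fun N => ∑ n ∈ Finset.range N, coeff hh n f • h n) atTop (𝓝 f) :=
  (hh f).choose_spec.1

lemma coeff_unique {h : ℕ → WeakDual 𝕜 E} (hh : IsWeakStarBasis 𝕜 h) (f : WeakDual 𝕜 E)
    (a : ℕ → 𝕜) (ha : Tendsto (fun N => ∑ n ∈ Finset.range N, a n • h n) atTop (𝓝 f)) (n : ℕ) :
    coeff hh n f = a n := by
  have := (hh f).choose_spec.2 a ha
  exact (congrFun this n).symm

/-- the coefficient functional as a linear map -/
noncomputable def coeffL {h : ℕ → WeakDual 𝕜 E} (hh : IsWeakStarBasis 𝕜 h) (n : ℕ) :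
    WeakDual 𝕜 E →ₗ[𝕜] 𝕜 where
  toFun f := coeff hh n f
  map_add' f g := by
    apply coeff_unique hh (f + g) (fun n => coeff hh n f + coeff hh n g)
    have h1 := (coeff_spec hh f).add (coeff_spec hh g)
    refine h1.congr fun N => ?_
    rw [← Finset.sum_add_distrib]
    exact Finset.sum_congr rfl fun n _ => (add_smul _ _ _).symm
  map_smul' c f := by
    apply coeff_unique hh (c • f) (fun n => c * coeff hh n f)
    have h1 := (coeff_spec hh f).const_smul c
    refine h1.congr fun N => ?_
    rw [Finset.smul_sum]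
    exact Finset.sum_congr rfl fun n _ => (mul_smul _ _ _).symm

/-- if every functional vanishing on a countable set is zero, the space is separable -/
lemma separable_of_total (x : ℕ → E) (hx : ∀ f : E →L[𝕜] 𝕜, (∀ n, f (x n) = 0) → f = 0) :
    TopologicalSpace.SeparableSpace E := by
  set M : Submodule 𝕜 E := (Submodule.span 𝕜 (Set.range x)).topologicalClosure with hM
  have hMc : IsClosed (M : Set E) := Submodule.isClosed_topologicalClosure _
  have hxM : ∀ n, x n ∈ M := fun n =>
    Submodule.le_topologicalClosure _ (Submodule.subset_span ⟨n, rfl⟩)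
  have htop : M = ⊤ := by
    by_contra hne
    obtain ⟨y, hy⟩ : ∃ y, y ∉ M := by
      by_contra hcon
      push Not at hcon
      exact hne (eq_top_iff.2 fun z _ => hcon z)
    have : IsClosed (M : Set E) := hMc
    have hy0 : (Submodule.Quotient.mk y : E ⧸ M) ≠ 0 := by
      rw [Ne, Submodule.Quotient.mk_eq_zero]; exact hy
    obtain ⟨g, -, hg⟩ := exists_dual_vector 𝕜 (Submodule.Quotient.mk y : E ⧸ M)
      (norm_ne_zero_iff.2 hy0)
    have h1 : g.comp M.mkQL = 0 := by
      apply hx
      intro n
      have h2 : M.mkQL (x n) = 0 := (Submodule.Quotient.mk_eq_zero M).2 (hxM n)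
      rw [ContinuousLinearMap.comp_apply, h2, map_zero]
    have h3 : g (Submodule.Quotient.mk y) = 0 := by
      have := DFunLike.congr_fun h1 y
      exact this
    rw [h3] at hg
    have h4 : ‖(Submodule.Quotient.mk y : E ⧸ M)‖ = 0 := by
      exact_mod_cast hg.symm
    exact hy0 (norm_eq_zero.1 h4)
  have h1 : TopologicalSpace.IsSeparable (Submodule.span 𝕜 (Set.range x) : Set E) :=
    (Set.countable_range x).isSeparable.span
  have h2 : TopologicalSpace.IsSeparable (Set.univ : Set E) := by
    have h3 := h1.closure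
    have h4 : closure (Submodule.span 𝕜 (Set.range x) : Set E) = Set.univ := by
      rw [← Submodule.topologicalClosure_coe, ← hM, htop, Submodule.top_coe]
    rwa [h4] at h3
  exact TopologicalSpace.isSeparable_univ_iff.1 h2

/-- **A weak* Schauder basis of the dual forces separability.** -/
theorem separable_of_schauder {h : ℕ → WeakDual 𝕜 E} (hh : IsWeakStarSchauderBasis 𝕜 h) :
    TopologicalSpace.SeparableSpace E := by
  obtain ⟨hb, hc⟩ := hh
  have hex : ∀ n, ∃ x : E, ∀ f : WeakDual 𝕜 E, coeff hb n f = f x := by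
    intro n
    let φ : StrongDual 𝕜 (WeakBilin (topDualPairing 𝕜 E)) := ⟨coeffL hb n, hc n⟩
    obtain ⟨x, hx⟩ := LinearMap.dualEmbedding_surjective (topDualPairing 𝕜 E) φ
    refine ⟨x, fun f => ?_⟩
    have := DFunLike.congr_fun hx f
    exact this.symm
  choose x hx using hex
  apply separable_of_total (𝕜 := 𝕜) x
  intro f hf
  have h1 : ∀ n, coeff hb n (StrongDual.toWeakDual f) = 0 := by
    intro n; rw [hx]; exact hf n
  have h2 := coeff_spec hb (StrongDual.toWeakDual f)
  simp only [h1, zero_smul, Finset.sum_const_zero] at h2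
  have h3 : StrongDual.toWeakDual f = 0 := tendsto_nhds_unique h2 tendsto_const_nhds |>.symm ▸ rfl
  have h4 : StrongDual.toWeakDual f = StrongDual.toWeakDual 0 := by rw [h3, map_zero]
  exact StrongDual.toWeakDual.injective h4

end Pool.Agent.Work.MP_605a0d_an
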