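import Pool.Agent.Work.MP_605a0d_an.Tree

/-!
# MP_605a0d_an : telescoping along the paths of the tree
-/

set_option autoImplicit false

namespace Pool.Agent.Work.MP_605a0d_an

open Filter Topology Set
open scoped Classical

/-- the last element of `Q` up to `N` -/
noncomputable def lastQ (Q : ℕ → Prop) : ℕ → ℕ
  | 0 => 0
  | N + 1 => if Q (N + 1) then N + 1 else lastQ Q N

/-- `Q` is (the set of nodes of) a path from the root -/
def IsPath (Q : ℕ → Prop) : Prop := Q 0 ∧ ∀ n, Q (n + 1) → lastQ Q n = n / 2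

/-- the increment at `n` -/
def dh {M : Type*} [AddGroup M] (x : ℕ → M) (n : ℕ) : M := x n - if n = 0 then 0 else x ((n - 1) / 2)

lemma path_sum {M : Type*} [AddCommGroup M] {Q : ℕ → Prop} (hQ : IsPath Q) (x : ℕ → M) (N : ℕ) :
    ∑ n ∈ Finset.range (N + 1), (if Q n then dh x n else 0) = x (lastQ Q N) := by
  induction N with
  | zero => simp [hQ.1, dh, lastQ]
  | succ N ih =>
    rw [Finset.sum_range_succ, ih, lastQ]
    by_cases h : Q (N + 1)
    · rw [if_pos h, if_pos h, hQ.2 N h, dh, if_neg (by omega), Nat.add_sub_cancel]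
      abel
    · rw [if_neg h, if_neg h, add_zero]

lemma branch_inv (r : K) (N : ℕ) : ∃ ℓ, lastQ (fun n => r ∈ Cyl n) N = node r ℓ ∧
    node r ℓ ≤ N ∧ N < node r (ℓ + 1) := by
  induction N with
  | zero => exact ⟨0, rfl, le_rfl, node_lt_succ r 0⟩
  | succ N ih =>
    obtain ⟨ℓ, h1, h2, h3⟩ := ih
    by_cases h : N + 1 = node r (ℓ + 1)
    · refine ⟨ℓ + 1, ?_, h.ge, ?_⟩
      · rw [lastQ, if_pos ⟨ℓ + 1, h.symm⟩, h]
      · rw [h]; exact node_lt_succ r _
    · refine ⟨ℓ, ?_, by omega, by omega⟩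
      rw [lastQ, if_neg, h1]
      rintro ⟨k, hk⟩
      have h4 : node r ℓ < node r k := by omega
      have h5 : node r k < node r (ℓ + 1) := by omega
      have h6 := (node_strictMono r).lt_iff_lt.1 h4
      have h7 := (node_strictMono r).lt_iff_lt.1 h5
      omega

lemma branch_path (r : K) : IsPath fun n => r ∈ Cyl n := by
  refine ⟨⟨0, rfl⟩, ?_⟩
  rintro n ⟨k, hk⟩
  obtain ⟨ℓ, h1, h2, h3⟩ := branch_inv r n
  rw [h1]
  have h4 : node r ℓ < node r k := by omega
  have h6 := (node_strictMono r).lt_iff_lt.1 h4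
  have h7 : node r (ℓ + 1) ≤ node r k := (node_strictMono r).monotone h6
  have h8 : node r (ℓ + 1) = n + 1 := by omega
  rw [node_succ] at h8
  split_ifs at h8 <;> omega

/-- the levels along a branch tend to infinity -/
lemma branch_tendsto (r : K) : ∃ ℓ : ℕ → ℕ, Tendsto ℓ atTop atTop ∧
    ∀ N, lastQ (fun n => r ∈ Cyl n) N = node r (ℓ N) := by
  choose ℓ h1 h2 h3 using branch_inv r
  refine ⟨ℓ, ?_, h1⟩
  rw [tendsto_atTop]
  intro b
  filter_upwards [eventually_ge_atTop (node r b)] with N hN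
  have h4 : node r b < node r (ℓ N + 1) := lt_of_le_of_lt hN (h3 N)
  have := (node_strictMono r).lt_iff_lt.1 h4
  omega

lemma trunc_of_le (r : K) (t N : ℕ) (h : N ≤ t) :
    lastQ (fun n => r ∈ Cyl n ∧ n ≤ t) N = lastQ (fun n => r ∈ Cyl n) N := by
  induction N with
  | zero => rfl
  | succ N ih =>
    rw [lastQ, lastQ, ih (by omega)]
    simp [h]

lemma trunc_path (r : K) (t : ℕ) : IsPath fun n => r ∈ Cyl n ∧ n ≤ t := by
  refine ⟨⟨⟨0, rfl⟩, Nat.zero_le _⟩, ?_⟩
  rintro n ⟨h1, h2⟩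
  rw [trunc_of_le r t n (by omega)]
  exact (branch_path r).2 n h1

lemma trunc_of_ge (r : K) (t N : ℕ) (hr : r ∈ Cyl t) (h : t ≤ N) :
    lastQ (fun n => r ∈ Cyl n ∧ n ≤ t) N = t := by
  induction N, h using Nat.le_induction with
  | base =>
    cases t with
    | zero => rfl
    | succ t => rw [lastQ, if_pos ⟨hr, le_rfl⟩]
  | succ N hN ih =>
    rw [lastQ, if_neg, ih]
    rintro ⟨_, h⟩
    omega

end Pool.Agent.Work.MP_605a0d_an
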