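import Pool.Agent.Work.MP_605a0d_an.Family
import Pool.Agent.Work.MP_605a0d_an.Paths
import Pool.Agent.Work.MP_605a0d_an.NoSchauder

/-!
# MP_605a0d_an : the Banach space
-/

set_option autoImplicit false

namespace Pool.Agent.Work.MP_605a0d_an

open Filter Topology Set
open scoped Classical

variable (𝕜 : Type) [RCLike 𝕜]

/-- bounded functions on the tree -/
abbrev BF := BoundedContinuousFunction ℕ 𝕜

/-- the indicator function of a set of nodes -/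
noncomputable def ind (B : Set ℕ) : BF 𝕜 :=
  BoundedContinuousFunction.ofNormedAddCommGroupDiscrete (fun n => if n ∈ B then (1 : 𝕜) else 0) 1
    (by intro n; split_ifs <;> simp)

lemma ind_apply (B : Set ℕ) (n : ℕ) : ind 𝕜 B n = if n ∈ B then (1 : 𝕜) else 0 := rfl

variable {Γ : Type} (A : Γ → Set ℕ)

/-- the Banach space -/
noncomputable abbrev ES : Submodule 𝕜 (BF 𝕜) :=
  (Submodule.span 𝕜 (range (fun n : ℕ => ind 𝕜 {n}) ∪ range (fun γ => ind 𝕜 (A γ)))).topologicalClosure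

/-- generators -/
noncomputable def ee (n : ℕ) : ES 𝕜 A :=
  ⟨ind 𝕜 {n}, Submodule.le_topologicalClosure _ (Submodule.subset_span (Or.inl ⟨n, rfl⟩))⟩

/-- generators -/
noncomputable def uu (γ : Γ) : ES 𝕜 A :=
  ⟨ind 𝕜 (A γ), Submodule.le_topologicalClosure _ (Submodule.subset_span (Or.inr ⟨γ, rfl⟩))⟩

lemma ee_apply (n m : ℕ) : (ee 𝕜 A n).1 m = if m = n then (1 : 𝕜) else 0 := by
  show ind 𝕜 {n} m = _
  rw [ind_apply]
  simp

lemma uu_apply (γ : Γ) (m : ℕ) : (uu 𝕜 A γ).1 m = if m ∈ A γ then (1 : 𝕜) else 0 := rfl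

instance : CompleteSpace (ES 𝕜 A) :=
  (Submodule.isClosed_topologicalClosure _).completeSpace_coe

/-- the basis functionals -/
noncomputable def hh (n : ℕ) : ES 𝕜 A →L[𝕜] 𝕜 :=
  ((BoundedContinuousFunction.evalCLM 𝕜 n : BF 𝕜 →L[𝕜] 𝕜) -
    if n = 0 then 0 else (BoundedContinuousFunction.evalCLM 𝕜 ((n - 1) / 2) : BF 𝕜 →L[𝕜] 𝕜)).comp
    (ES 𝕜 A).subtypeL

lemma hh_apply (n : ℕ) (x : ES 𝕜 A) : hh 𝕜 A n x = dh (fun m => x.1 m) n := by
  unfold hh dh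
  rw [ContinuousLinearMap.comp_apply, sub_apply]
  by_cases h : n = 0
  · rw [if_pos h, if_pos h]; rfl
  · rw [if_neg h, if_neg h]; rfl

lemma norm_apply_le (x : ES 𝕜 A) (m : ℕ) : ‖x.1 m‖ ≤ ‖x‖ :=
  BoundedContinuousFunction.norm_coe_le_norm x.1 m

lemma norm_le_of (x : ES 𝕜 A) (C : ℝ) (hC : 0 ≤ C) (h : ∀ m, ‖x.1 m‖ ≤ C) : ‖x‖ ≤ C :=
  (BoundedContinuousFunction.norm_le hC).2 h

lemma sum_coe_apply {ι : Type} (s : Finset ι) (f : ι → ES 𝕜 A) (m : ℕ) :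
    (∑ i ∈ s, f i).1 m = ∑ i ∈ s, (f i).1 m := by
  have h1 : (∑ i ∈ s, f i).1 = ∑ i ∈ s, (f i).1 := by
    rw [← Submodule.coe_sum]
  rw [h1]
  exact BoundedContinuousFunction.sum_apply _ _ _

variable {𝕜 A}

/-- a functional on vectors all of whose unimodular combinations are small -/
lemma sum_norm_le (F : ES 𝕜 A →L[𝕜] 𝕜) {ι : Type} (s : Finset ι) (x : ι → ES 𝕜 A)
    (h : ∀ u : ι → 𝕜, (∀ i, ‖u i‖ ≤ 1) → ‖∑ i ∈ s, u i • x i‖ ≤ 1) :
    ∑ i ∈ s, ‖F (x i)‖ ≤ ‖F‖ := by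
  have h1 : ∀ i, ∃ c : 𝕜, ‖c‖ = 1 ∧ (‖F (x i)‖ : 𝕜) = c * F (x i) := fun i =>
    RCLike.exists_norm_eq_mul_self _
  choose u hu1 hu2 using h1
  have h2 : F (∑ i ∈ s, u i • x i) = ((∑ i ∈ s, ‖F (x i)‖ : ℝ) : 𝕜) := by
    rw [map_sum]
    push_cast
    refine Finset.sum_congr rfl fun i _ => ?_
    rw [map_smul, smul_eq_mul]
    exact (hu2 i).symm
  have h3 : ‖F (∑ i ∈ s, u i • x i)‖ ≤ ‖F‖ * 1 :=
    (F.le_opNorm _).trans (mul_le_mul_of_nonneg_left (h u fun i => (hu1 i).le) (norm_nonneg _))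
  rw [h2, mul_one, RCLike.norm_ofReal] at h3
  exact (le_abs_self _).trans h3

lemma sum_ee_norm (s : Finset ℕ) (u : ℕ → 𝕜) (hu : ∀ i, ‖u i‖ ≤ 1) :
    ‖∑ i ∈ s, u i • ee 𝕜 A i‖ ≤ 1 := by
  apply norm_le_of _ _ _ _ zero_le_one
  intro m
  rw [sum_coe_apply]
  have h1 : ∀ i ∈ s, (u i • ee 𝕜 A i).1 m = if m = i then u i else 0 := by
    intro i _
    show u i * (ee 𝕜 A i).1 m = _
    rw [ee_apply]
    split_ifs <;> simp
  rw [Finset.sum_congr rfl h1, Finset.sum_ite_eq]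
  split_ifs
  · exact hu m
  · simp

/-- the tails of the generators `uu` -/
noncomputable def vv (𝕜 : Type) [RCLike 𝕜] {Γ : Type} (A : Γ → Set ℕ) (γ : Γ) (M : ℕ) : ES 𝕜 A :=
  uu 𝕜 A γ - ∑ n ∈ Finset.range M, if n ∈ A γ then ee 𝕜 A n else 0

lemma vv_apply (γ : Γ) (M m : ℕ) : (vv 𝕜 A γ M).1 m = if m ∈ A γ ∧ M ≤ m then (1 : 𝕜) else 0 := by
  unfold vv
  have h0 : (uu 𝕜 A γ - ∑ n ∈ Finset.range M, if n ∈ A γ then ee 𝕜 A n else 0).1 m =
      (uu 𝕜 A γ).1 m - (∑ n ∈ Finset.range M, if n ∈ A γ then ee 𝕜 A n else 0).1 m := rfl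
  rw [h0, sum_coe_apply, uu_apply]
  have h1 : ∀ n ∈ Finset.range M, (if n ∈ A γ then ee 𝕜 A n else 0 : ES 𝕜 A).1 m =
      if m = n then (if m ∈ A γ then (1 : 𝕜) else 0) else 0 := by
    intro n _
    by_cases h : n ∈ A γ
    · rw [if_pos h, ee_apply]
      by_cases h2 : m = n
      · rw [if_pos h2, if_pos h2, h2, if_pos h]
      · rw [if_neg h2, if_neg h2]
    · rw [if_neg h]
      by_cases h2 : m = n
      · rw [if_pos h2, h2, if_neg h]; rfl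
      · rw [if_neg h2]; rfl
  rw [Finset.sum_congr rfl h1, Finset.sum_ite_eq]
  by_cases h2 : m ∈ A γ
  · by_cases h3 : m < M
    · rw [if_pos h2, if_pos (Finset.mem_range.2 h3), if_neg (by omega), sub_self]
    · rw [if_pos h2, if_neg (by rw [Finset.mem_range]; exact h3), if_pos ⟨h2, by omega⟩, sub_zero]
  · rw [if_neg h2, ite_self, sub_zero, if_neg (fun h => h2 h.1)]

lemma sum_vv_norm (s : Finset Γ) (M : ℕ)
    (hM : ∀ γ ∈ s, ∀ γ' ∈ s, γ ≠ γ' → ∀ m ∈ A γ ∩ A γ', m < M) (u : Γ → 𝕜) (hu : ∀ i, ‖u i‖ ≤ 1) :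
    ‖∑ γ ∈ s, u γ • vv 𝕜 A γ M‖ ≤ 1 := by
  apply norm_le_of _ _ _ _ zero_le_one
  intro m
  rw [sum_coe_apply]
  have h1 : ∀ γ ∈ s, (u γ • vv 𝕜 A γ M).1 m = if m ∈ A γ ∧ M ≤ m then u γ else 0 := by
    intro γ _
    show u γ * (vv 𝕜 A γ M).1 m = _
    rw [vv_apply]
    split_ifs <;> simp
  rw [Finset.sum_congr rfl h1]
  by_cases h : ∃ γ ∈ s, m ∈ A γ ∧ M ≤ m
  · obtain ⟨γ, hγ, h2⟩ := h
    rw [Finset.sum_eq_single_of_mem γ hγ, if_pos h2]
    · exact hu γ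
    · intro γ' hγ' hne
      rw [if_neg]
      intro h3
      have := hM γ' hγ' γ hγ hne m ⟨h3.1, h2.1⟩
      omega
  · rw [Finset.sum_eq_zero]
    · simp
    · intro γ hγ
      rw [if_neg]
      exact fun h2 => h ⟨γ, hγ, h2⟩

section Coefficients

variable (F : ES 𝕜 A →L[𝕜] 𝕜)

lemma summable_c : Summable fun n => ‖F (ee 𝕜 A n)‖ :=
  summable_of_sum_le (fun _ => norm_nonneg _) (c := ‖F‖) fun s =>
    sum_norm_le F s _ fun u hu => sum_ee_norm s u hu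

/-- the coefficient of `F` at the point at infinity `γ` -/
noncomputable def dco (γ : Γ) : 𝕜 :=
  F (uu 𝕜 A γ) - ∑' n, if n ∈ A γ then F (ee 𝕜 A n) else 0

lemma summable_ind (B : Set ℕ) : Summable fun n => if n ∈ B then F (ee 𝕜 A n) else 0 := by
  refine Summable.of_norm_bounded (summable_c F) fun n => ?_
  split_ifs
  · exact le_rfl
  · simp

lemma tendsto_vv (γ : Γ) : Tendsto (fun M => F (vv 𝕜 A γ M)) atTop (𝓝 (dco F γ)) := by
  have h1 : ∀ M, F (vv 𝕜 A γ M) =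
      F (uu 𝕜 A γ) - ∑ n ∈ Finset.range M, if n ∈ A γ then F (ee 𝕜 A n) else 0 := by
    intro M
    unfold vv
    rw [map_sub, map_sum]
    congr 1
    refine Finset.sum_congr rfl fun n _ => ?_
    split_ifs
    · rfl
    · exact map_zero F
  simp only [h1]
  exact tendsto_const_nhds.sub (summable_ind F (A γ)).hasSum.tendsto_sum_nat

lemma summable_d (hAD : ∀ γ γ', γ ≠ γ' → (A γ ∩ A γ').Finite) :
    Summable fun γ => ‖dco F γ‖ := by
  refine summable_of_sum_le (fun _ => norm_nonneg _) (c := ‖F‖) fun s => ?_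
  -- a common bound for the intersections
  have hb : ∀ γ γ', ∃ b : ℕ, γ ≠ γ' → ∀ m ∈ A γ ∩ A γ', m < b := by
    intro γ γ'
    by_cases h : γ = γ'
    · exact ⟨0, fun h' => absurd h h'⟩
    · obtain ⟨b, hb⟩ := (hAD γ γ' h).bddAbove
      exact ⟨b + 1, fun _ m hm => Nat.lt_succ_of_le (hb hm)⟩
  choose b hb using hb
  let M0 := ∑ γ ∈ s, ∑ γ' ∈ s, b γ γ'
  have hM0 : ∀ γ ∈ s, ∀ γ' ∈ s, b γ γ' ≤ M0 := by
    intro γ hγ γ' hγ'
    calc b γ γ' ≤ ∑ γ' ∈ s, b γ γ' :=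
          Finset.single_le_sum (f := fun γ' => b γ γ') (fun _ _ => Nat.zero_le _) hγ'
      _ ≤ M0 := Finset.single_le_sum (f := fun γ => ∑ γ' ∈ s, b γ γ') (fun _ _ => Nat.zero_le _) hγ
  have h1 : Tendsto (fun M => ∑ γ ∈ s, ‖F (vv 𝕜 A γ M)‖) atTop (𝓝 (∑ γ ∈ s, ‖dco F γ‖)) :=
    tendsto_finsetSum _ fun γ _ => (tendsto_vv F γ).norm
  refine le_of_tendsto h1 ?_
  filter_upwards [eventually_ge_atTop M0] with M hM
  apply sum_norm_le F s
  intro u hu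
  apply sum_vv_norm s M _ u hu
  intro γ hγ γ' hγ' hne m hm
  have h2 := hb γ γ' hne m hm
  have h3 := hM0 γ hγ γ' hγ'
  omega

end Coefficients

/-- weights along paths -/
lemma weights {ι : Type} (w : ι → 𝕜) (hw : Summable fun i => ‖w i‖) (Q : ι → ℕ → Prop)
    (hQ : ∀ i, IsPath (Q i)) (x : ES 𝕜 A) (N : ℕ) :
    ∑ n ∈ Finset.range (N + 1), (∑' i, if Q i n then w i else 0) * hh 𝕜 A n x =
      ∑' i, w i * x.1 (lastQ (Q i) N) := by
  have hs : ∀ n, Summable fun i => (if Q i n then w i else 0) * hh 𝕜 A n x := by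
    intro n
    refine Summable.mul_right _ (Summable.of_norm_bounded hw fun i => ?_)
    split_ifs
    · exact le_rfl
    · simp
  have h1 : ∀ n ∈ Finset.range (N + 1), (∑' i, if Q i n then w i else 0) * hh 𝕜 A n x =
      ∑' i, (if Q i n then w i else 0) * hh 𝕜 A n x := fun n _ => tsum_mul_right.symm
  rw [Finset.sum_congr rfl h1, ← Summable.tsum_finsetSum fun n _ => hs n]
  congr 1
  funext i
  rw [← path_sum (hQ i) (fun m => x.1 m) N, Finset.mul_sum]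
  refine Finset.sum_congr rfl fun n _ => ?_
  rw [hh_apply]
  split_ifs <;> simp

lemma weights_tendsto {ι : Type} (w : ι → 𝕜) (hw : Summable fun i => ‖w i‖) (Q : ι → ℕ → Prop)
    (x : ES 𝕜 A) (l : ι → 𝕜)
    (hl : ∀ i, Tendsto (fun N => x.1 (lastQ (Q i) N)) atTop (𝓝 (l i))) :
    Tendsto (fun N => ∑' i, w i * x.1 (lastQ (Q i) N)) atTop (𝓝 (∑' i, w i * l i)) := by
  refine tendsto_tsum_of_dominated_convergence (bound := fun i => ‖w i‖ * ‖x‖) (hw.mul_right _)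
    (fun i => (hl i).const_mul _) (Eventually.of_forall fun N i => ?_)
  rw [norm_mul]
  exact mul_le_mul_of_nonneg_left (norm_apply_le 𝕜 A x _) (norm_nonneg _)

lemma weights_bound {ι : Type} (w : ι → 𝕜) (hw : Summable fun i => ‖w i‖) (q : ι → ℕ)
    (x : ES 𝕜 A) : ‖∑' i, w i * x.1 (q i)‖ ≤ (∑' i, ‖w i‖) * ‖x‖ := by
  rw [← tsum_mul_right]
  refine tsum_of_norm_bounded (hw.mul_right ‖x‖).hasSum fun i => ?_
  rw [norm_mul]
  exact mul_le_mul_of_nonneg_left (norm_apply_le 𝕜 A x _) (norm_nonneg _)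

end Pool.Agent.Work.MP_605a0d_an
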