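import Pool.Agent.Work.MP_605a0d_an.Banach

/-!
# MP_605a0d_an : the weak* basis
-/

set_option autoImplicit false

namespace Pool.Agent.Work.MP_605a0d_an

open Filter Topology Set
open scoped Classical

variable {𝕜 : Type} [RCLike 𝕜] {Γ : Type} {A : Γ → Set ℕ}

/-- a branch through the node `t` -/
noncomputable def br (t : ℕ) : K := (Cyl_nonempty t).some

lemma br_mem (t : ℕ) : br t ∈ Cyl t := (Cyl_nonempty t).some_mem

/-- the path to the node `t` -/
def Q1 (t : ℕ) (n : ℕ) : Prop := br t ∈ Cyl n ∧ n ≤ t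

/-- the path of the branch `p γ` -/
def Q2 (p : Γ → K) (γ : Γ) (n : ℕ) : Prop := p γ ∈ Cyl n

lemma Q1_path (t : ℕ) : IsPath (Q1 t) := trunc_path _ t

lemma Q2_path (p : Γ → K) (γ : Γ) : IsPath (Q2 p γ) := branch_path _

/-- the coefficients of a functional -/
noncomputable def co (p : Γ → K) (F : ES 𝕜 A →L[𝕜] 𝕜) (n : ℕ) : 𝕜 :=
  (∑' t, if Q1 t n then F (ee 𝕜 A t) else 0) + ∑' γ, if Q2 p γ n then dco F γ else 0

lemma sum_co (p : Γ → K) (hAD : ∀ γ γ', γ ≠ γ' → (A γ ∩ A γ').Finite) (F : ES 𝕜 A →L[𝕜] 𝕜)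
    (x : ES 𝕜 A) (N : ℕ) :
    ∑ n ∈ Finset.range (N + 1), co p F n * hh 𝕜 A n x =
      (∑' t, F (ee 𝕜 A t) * x.1 (lastQ (Q1 t) N)) + ∑' γ, dco F γ * x.1 (lastQ (Q2 p γ) N) := by
  rw [← weights _ (summable_c F) Q1 Q1_path x N, ← weights _ (summable_d F hAD) (Q2 p) (Q2_path p) x N,
    ← Finset.sum_add_distrib]
  refine Finset.sum_congr rfl fun n _ => ?_
  rw [co, add_mul]

lemma limQ1 (t : ℕ) (x : ES 𝕜 A) :
    Tendsto (fun N => x.1 (lastQ (Q1 t) N)) atTop (𝓝 (x.1 t)) := by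
  apply tendsto_const_nhds.congr'
  filter_upwards [eventually_ge_atTop t] with N hN
  rw [show lastQ (Q1 t) N = t from trunc_of_ge (br t) t N (br_mem t) hN]

lemma limQ2_ee (p : Γ → K) (γ : Γ) (m : ℕ) :
    Tendsto (fun N => (ee 𝕜 A m).1 (lastQ (Q2 p γ) N)) atTop (𝓝 0) := by
  obtain ⟨ℓ, h1, h2⟩ := branch_tendsto (p γ)
  apply tendsto_const_nhds.congr'
  filter_upwards [h1.eventually_ge_atTop (m + 1)] with N hN
  rw [show lastQ (Q2 p γ) N = node (p γ) (ℓ N) from h2 N, ee_apply, if_neg]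
  have := le_node (p γ) (ℓ N)
  omega

lemma limQ2_uu (p : Γ → K) (hAb : ∀ γ ℓ, node (p γ) ℓ ∈ A γ)
    (hAD : ∀ γ γ', γ ≠ γ' → (A γ ∩ A γ').Finite) (γ γ' : Γ) :
    Tendsto (fun N => (uu 𝕜 A γ').1 (lastQ (Q2 p γ) N)) atTop (𝓝 (if γ = γ' then 1 else 0)) := by
  obtain ⟨ℓ, h1, h2⟩ := branch_tendsto (p γ)
  by_cases h : γ = γ'
  · subst h
    rw [if_pos rfl]
    apply tendsto_const_nhds.congr
    intro N
    rw [show lastQ (Q2 p γ) N = node (p γ) (ℓ N) from h2 N, uu_apply, if_pos (hAb γ _)]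
  · rw [if_neg h]
    obtain ⟨b, hb⟩ := (hAD γ γ' h).bddAbove
    apply tendsto_const_nhds.congr'
    filter_upwards [h1.eventually_ge_atTop (b + 1)] with N hN
    rw [show lastQ (Q2 p γ) N = node (p γ) (ℓ N) from h2 N, uu_apply, if_neg]
    intro h3
    have h4 := hb ⟨hAb γ (ℓ N), h3⟩
    have h5 := le_node (p γ) (ℓ N)
    omega

/-- the partial sums -/
noncomputable def SS (𝕜 : Type) [RCLike 𝕜] {Γ : Type} (A : Γ → Set ℕ) (a : ℕ → 𝕜) (N : ℕ) :
    ES 𝕜 A →L[𝕜] 𝕜 := ∑ n ∈ Finset.range N, a n • hh 𝕜 A n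

lemma SS_apply (a : ℕ → 𝕜) (N : ℕ) (x : ES 𝕜 A) :
    SS 𝕜 A a N x = ∑ n ∈ Finset.range N, a n * hh 𝕜 A n x := by
  unfold SS
  rw [sum_apply]
  rfl

/-- **Existence of expansions.** -/
theorem existence (p : Γ → K) (hAb : ∀ γ ℓ, node (p γ) ℓ ∈ A γ)
    (hAD : ∀ γ γ', γ ≠ γ' → (A γ ∩ A γ').Finite) (F : ES 𝕜 A →L[𝕜] 𝕜) (x : ES 𝕜 A) :
    Tendsto (fun N => SS 𝕜 A (co p F) N x) atTop (𝓝 (F x)) := by
  rw [← tendsto_add_atTop_iff_nat 1]
  -- convergence on generators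
  have hgen : ∀ y : ES 𝕜 A, ((∃ n, y = ee 𝕜 A n) ∨ ∃ γ, y = uu 𝕜 A γ) →
      Tendsto (fun N => SS 𝕜 A (co p F) (N + 1) y) atTop (𝓝 (F y)) := by
    rintro y (⟨m, rfl⟩ | ⟨γ', rfl⟩)
    · simp only [SS_apply, sum_co p hAD F]
      have h1 := weights_tendsto _ (summable_c F) Q1 (ee 𝕜 A m) _ fun t => limQ1 t _
      have h2 := weights_tendsto _ (summable_d F hAD) (Q2 p) (ee 𝕜 A m) _ fun γ => limQ2_ee p γ m
      have h3 := h1.add h2
      have h4 : ((∑' t, F (ee 𝕜 A t) * (ee 𝕜 A m).1 t) + ∑' γ, dco F γ * (0 : 𝕜)) =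
          F (ee 𝕜 A m) := by
        simp only [mul_zero, tsum_zero, add_zero]
        rw [tsum_eq_single m]
        · rw [ee_apply, if_pos rfl, mul_one]
        · intro t ht
          rw [ee_apply, if_neg ht, mul_zero]
      rwa [h4] at h3
    · simp only [SS_apply, sum_co p hAD F]
      have h1 := weights_tendsto _ (summable_c F) Q1 (uu 𝕜 A γ') _ fun t => limQ1 t _
      have h2 := weights_tendsto _ (summable_d F hAD) (Q2 p) (uu 𝕜 A γ') _
        fun γ => limQ2_uu p hAb hAD γ γ'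
      have h3 := h1.add h2
      have h4 : ((∑' t, F (ee 𝕜 A t) * (uu 𝕜 A γ').1 t) +
          ∑' γ, dco F γ * (if γ = γ' then (1 : 𝕜) else 0)) = F (uu 𝕜 A γ') := by
        rw [tsum_eq_single (β := Γ) γ']
        · rw [if_pos rfl, mul_one, dco]
          have h5 : (∑' t, F (ee 𝕜 A t) * (uu 𝕜 A γ').1 t) =
              ∑' n, if n ∈ A γ' then F (ee 𝕜 A n) else 0 := by
            congr 1
            funext t
            rw [uu_apply]
            split_ifs <;> simp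
          rw [h5]
          ring
        · intro γ hγ
          rw [if_neg hγ, mul_zero]
      rwa [h4] at h3
  -- convergence on the span
  let Y : Submodule 𝕜 (BF 𝕜) :=
    Submodule.span 𝕜 (range (fun n : ℕ => ind 𝕜 {n}) ∪ range (fun γ => ind 𝕜 (A γ)))
  have hspan : ∀ (y : BF 𝕜) (hy : y ∈ Y),
      Tendsto (fun N => SS 𝕜 A (co p F) (N + 1) ⟨y, Submodule.le_topologicalClosure _ hy⟩) atTop
        (𝓝 (F ⟨y, Submodule.le_topologicalClosure _ hy⟩)) := by
    intro y hy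
    induction hy using Submodule.span_induction with
    | mem y hy =>
      apply hgen
      rcases hy with ⟨n, rfl⟩ | ⟨γ, rfl⟩
      · exact Or.inl ⟨n, rfl⟩
      · exact Or.inr ⟨γ, rfl⟩
    | zero =>
      have h1 : (⟨0, Submodule.le_topologicalClosure _ (Submodule.zero_mem Y)⟩ : ES 𝕜 A) = 0 := rfl
      simp only [h1, map_zero]
      exact tendsto_const_nhds
    | add y z hy hz h1 h2 =>
      have h3 : (⟨y + z, Submodule.le_topologicalClosure _ (Submodule.add_mem Y hy hz)⟩ : ES 𝕜 A) =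
          ⟨y, Submodule.le_topologicalClosure _ hy⟩ + ⟨z, Submodule.le_topologicalClosure _ hz⟩ := rfl
      simp only [h3, map_add]
      exact h1.add h2
    | smul c y hy h1 =>
      have h3 : (⟨c • y, Submodule.le_topologicalClosure _ (Submodule.smul_mem Y c hy)⟩ : ES 𝕜 A) =
          c • ⟨y, Submodule.le_topologicalClosure _ hy⟩ := rfl
      simp only [h3, map_smul]
      exact h1.const_smul c
  -- uniform bound
  obtain ⟨C, hC0, hC⟩ : ∃ C : ℝ, 0 < C ∧ ∀ N (z : ES 𝕜 A),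
      ‖SS 𝕜 A (co p F) (N + 1) z‖ ≤ C * ‖z‖ := by
    have hnn : 0 ≤ (∑' t, ‖F (ee 𝕜 A t)‖) + ∑' γ, ‖dco F γ‖ :=
      add_nonneg (tsum_nonneg fun _ => norm_nonneg _) (tsum_nonneg fun _ => norm_nonneg _)
    refine ⟨(∑' t, ‖F (ee 𝕜 A t)‖) + ∑' γ, ‖dco F γ‖ + 1, by linarith, fun N z => ?_⟩
    rw [SS_apply, sum_co p hAD F]
    calc ‖(∑' t, F (ee 𝕜 A t) * z.1 (lastQ (Q1 t) N)) + ∑' γ, dco F γ * z.1 (lastQ (Q2 p γ) N)‖
        ≤ ‖∑' t, F (ee 𝕜 A t) * z.1 (lastQ (Q1 t) N)‖ +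
          ‖∑' γ, dco F γ * z.1 (lastQ (Q2 p γ) N)‖ := norm_add_le _ _
      _ ≤ (∑' t, ‖F (ee 𝕜 A t)‖) * ‖z‖ + (∑' γ, ‖dco F γ‖) * ‖z‖ :=
        add_le_add (weights_bound _ (summable_c F) _ z) (weights_bound _ (summable_d F hAD) _ z)
      _ ≤ ((∑' t, ‖F (ee 𝕜 A t)‖) + ∑' γ, ‖dco F γ‖ + 1) * ‖z‖ := by
        have := norm_nonneg z
        nlinarith
  -- density
  rw [Metric.tendsto_atTop]
  intro ε hε
  set M := C + ‖F‖ + 1 with hM
  have hMpos : 0 < M := by have := norm_nonneg F; linarith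
  have hx : x.1 ∈ closure (Y : Set (BF 𝕜)) := x.2
  obtain ⟨y, hy, hxy⟩ := Metric.mem_closure_iff.1 hx (ε / (2 * M)) (by positivity)
  set y' : ES 𝕜 A := ⟨y, Submodule.le_topologicalClosure _ hy⟩ with hy'
  have hd : ‖x - y'‖ < ε / (2 * M) := by
    rw [← dist_eq_norm]
    exact hxy
  obtain ⟨N0, hN0⟩ := Metric.tendsto_atTop.1 (hspan y hy) (ε / 2) (by linarith)
  refine ⟨N0, fun N hN => ?_⟩
  have h1 := hN0 N hN
  rw [dist_eq_norm] at h1 ⊢
  have h2 : SS 𝕜 A (co p F) (N + 1) x - F x = (SS 𝕜 A (co p F) (N + 1) y' - F y') +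
      (SS 𝕜 A (co p F) (N + 1) (x - y') - F (x - y')) := by
    rw [map_sub, map_sub]; ring
  have h3 : ‖SS 𝕜 A (co p F) (N + 1) (x - y') - F (x - y')‖ ≤ (C + ‖F‖) * ‖x - y'‖ := by
    calc _ ≤ ‖SS 𝕜 A (co p F) (N + 1) (x - y')‖ + ‖F (x - y')‖ := norm_sub_le _ _
      _ ≤ C * ‖x - y'‖ + ‖F‖ * ‖x - y'‖ := add_le_add (hC N _) (F.le_opNorm _)
      _ = (C + ‖F‖) * ‖x - y'‖ := by ring
  have h4 : (C + ‖F‖) * ‖x - y'‖ < ε / 2 := by
    have h5 : (C + ‖F‖) * ‖x - y'‖ ≤ M * ‖x - y'‖ := by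
      apply mul_le_mul_of_nonneg_right _ (norm_nonneg _)
      linarith
    have h6 : M * ‖x - y'‖ < M * (ε / (2 * M)) := mul_lt_mul_of_pos_left hd hMpos
    have h7 : M * (ε / (2 * M)) = ε / 2 := by field_simp
    linarith
  calc ‖SS 𝕜 A (co p F) (N + 1) x - F x‖ ≤ _ + _ := by rw [h2]; exact norm_add_le _ _
    _ < ε / 2 + ε / 2 := add_lt_add h1 (lt_of_le_of_lt h3 h4)
    _ = ε := by ring

/-! ### Uniqueness -/

lemma hh_ee (n m : ℕ) : hh 𝕜 A m (ee 𝕜 A n) =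
    (if m = n then (1 : 𝕜) else 0) - (if m = 2 * n + 1 then 1 else 0) -
      (if m = 2 * n + 2 then 1 else 0) := by
  rw [hh_apply, dh]
  simp only [ee_apply]
  by_cases h0 : m = 0
  · subst h0
    simp
  · rw [if_neg h0]
    by_cases h1 : m = 2 * n + 1
    · have h2 : (m - 1) / 2 = n := by omega
      rw [if_pos h2, if_pos h1, if_neg (by omega : ¬ m = 2 * n + 2)]
      ring
    · by_cases h3 : m = 2 * n + 2
      · have h2 : (m - 1) / 2 = n := by omega
        rw [if_pos h2, if_pos h3, if_neg h1]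
        ring
      · have h2 : ¬ (m - 1) / 2 = n := by omega
        rw [if_neg h2, if_neg h1, if_neg h3]
        ring

lemma SS_ee (a : ℕ → 𝕜) (n N : ℕ) (h : 2 * n + 2 < N) :
    SS 𝕜 A a N (ee 𝕜 A n) = a n - a (2 * n + 1) - a (2 * n + 2) := by
  rw [SS_apply]
  have h1 : ∀ m ∈ Finset.range N, a m * hh 𝕜 A m (ee 𝕜 A n) =
      (if m = n then a m else 0) - (if m = 2 * n + 1 then a m else 0) -
        (if m = 2 * n + 2 then a m else 0) := by
    intro m _
    rw [hh_ee]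
    split_ifs <;> ring
  rw [Finset.sum_congr rfl h1, Finset.sum_sub_distrib, Finset.sum_sub_distrib,
    Finset.sum_ite_eq', Finset.sum_ite_eq', Finset.sum_ite_eq',
    if_pos (Finset.mem_range.2 (by omega)), if_pos (Finset.mem_range.2 (by omega)),
    if_pos (Finset.mem_range.2 (by omega))]

/-- partial sums at the end of a level -/
lemma SS_level (a : ℕ → 𝕜) (ha : ∀ n, a n = a (2 * n + 1) + a (2 * n + 2)) (ℓ : ℕ)
    (x : ES 𝕜 A) : SS 𝕜 A a (2 ^ (ℓ + 1) - 1) x = ∑ n ∈ Lv ℓ, a n * x.1 n := by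
  rw [SS_apply]
  induction ℓ with
  | zero =>
    simp [Lv, hh_apply, dh]
  | succ ℓ ih =>
    have h1 : 2 ^ (ℓ + 1 + 1) = 2 * 2 ^ (ℓ + 1) := by ring
    have h0 : 0 < 2 ^ (ℓ + 1) := by positivity
    have h2 : Finset.range (2 ^ (ℓ + 1 + 1) - 1) = Finset.range (2 ^ (ℓ + 1) - 1) ∪ Lv (ℓ + 1) := by
      ext m
      simp only [Finset.mem_range, Finset.mem_union, Lv, Finset.mem_Ico]
      omega
    have h3 : Disjoint (Finset.range (2 ^ (ℓ + 1) - 1)) (Lv (ℓ + 1)) := by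
      rw [Finset.disjoint_left]
      intro m h4 h5
      rw [Finset.mem_range] at h4
      rw [Lv, Finset.mem_Ico] at h5
      omega
    rw [h2, Finset.sum_union h3, ih, sum_Lv_succ, sum_Lv_succ, ← Finset.sum_add_distrib]
    refine Finset.sum_congr rfl fun n _ => ?_
    rw [hh_apply, hh_apply, dh, dh, if_neg (by omega), if_neg (by omega),
      show (2 * n + 1 - 1) / 2 = n by omega, show (2 * n + 2 - 1) / 2 = n by omega, ha n]
    ring

/-- **Uniqueness of expansions.** -/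
theorem uniqueness
    (hU : ∀ a : ℕ → ℝ, (∀ n, a n = a (2 * n + 1) + a (2 * n + 2)) →
      (∀ C : ℝ, (∀ ℓ, ∑ n ∈ Lv ℓ, |a n| ≤ C) →
        (∀ γ, Tendsto (fun ℓ => ∑ n ∈ Lv ℓ, (A γ).indicator a n) atTop (𝓝 0)) → a = 0))
    (a : ℕ → 𝕜) (h : ∀ x : ES 𝕜 A, Tendsto (fun N => SS 𝕜 A a N x) atTop (𝓝 0)) : a = 0 := by
  have hadd : ∀ n, a n = a (2 * n + 1) + a (2 * n + 2) := by
    intro n
    have h1 : Tendsto (fun N => SS 𝕜 A a N (ee 𝕜 A n)) atTop
        (𝓝 (a n - a (2 * n + 1) - a (2 * n + 2))) := by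
      apply tendsto_const_nhds.congr'
      filter_upwards [eventually_gt_atTop (2 * n + 2)] with N hN
      exact (SS_ee a n N hN).symm
    have h2 := tendsto_nhds_unique h1 (h (ee 𝕜 A n))
    linear_combination h2
  -- uniform boundedness
  obtain ⟨C, hC⟩ : ∃ C, ∀ N, ‖SS 𝕜 A a N‖ ≤ C := by
    apply banach_steinhaus
    intro x
    obtain ⟨b, hb⟩ := (h x).norm.bddAbove_range
    exact ⟨b, fun N => hb ⟨N, rfl⟩⟩
  have hbd : ∀ ℓ, ∑ n ∈ Lv ℓ, ‖a n‖ ≤ C := by
    intro ℓ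
    have h1 := sum_norm_le (SS 𝕜 A a (2 ^ (ℓ + 1) - 1)) (Lv ℓ) (ee 𝕜 A)
      fun u hu => sum_ee_norm _ u hu
    refine le_trans (le_of_eq ?_) (h1.trans (hC _))
    refine Finset.sum_congr rfl fun n hn => ?_
    rw [SS_level a hadd]
    congr 1
    rw [Finset.sum_eq_single_of_mem n hn]
    · rw [ee_apply, if_pos rfl, mul_one]
    · intro m _ hm
      rw [ee_apply, if_neg hm, mul_zero]
  have hlev : Tendsto (fun ℓ : ℕ => 2 ^ (ℓ + 1) - 1) atTop atTop := by
    apply tendsto_atTop_mono (f := fun ℓ : ℕ => ℓ) _ tendsto_id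
    intro ℓ
    have : ℓ + 1 < 2 ^ (ℓ + 1) := Nat.lt_two_pow_self
    show ℓ ≤ 2 ^ (ℓ + 1) - 1
    omega
  have hA : ∀ γ, Tendsto (fun ℓ => ∑ n ∈ Lv ℓ, (A γ).indicator a n) atTop (𝓝 0) := by
    intro γ
    refine ((h (uu 𝕜 A γ)).comp hlev).congr fun ℓ => ?_
    simp only [Function.comp]
    rw [SS_level a hadd]
    refine Finset.sum_congr rfl fun n _ => ?_
    rw [uu_apply, indicator_apply]
    split_ifs <;> simp
  have hre : (fun n => RCLike.re (a n)) = 0 := by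
    apply hU _ (fun n => by rw [hadd n, map_add]) C
    · intro ℓ
      exact (Finset.sum_le_sum fun n _ => RCLike.abs_re_le_norm (a n)).trans (hbd ℓ)
    · intro γ
      have h1 := (RCLike.continuous_re.tendsto (0 : 𝕜)).comp (hA γ)
      rw [map_zero] at h1
      refine h1.congr fun ℓ => ?_
      simp only [Function.comp]
      rw [map_sum]
      refine Finset.sum_congr rfl fun n _ => ?_
      rw [indicator_apply, indicator_apply]
      split_ifs <;> simp
  have him : (fun n => RCLike.im (a n)) = 0 := by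
    apply hU _ (fun n => by rw [hadd n, map_add]) C
    · intro ℓ
      exact (Finset.sum_le_sum fun n _ => RCLike.abs_im_le_norm (a n)).trans (hbd ℓ)
    · intro γ
      have h1 := (RCLike.continuous_im.tendsto (0 : 𝕜)).comp (hA γ)
      rw [map_zero] at h1
      refine h1.congr fun ℓ => ?_
      simp only [Function.comp]
      rw [map_sum]
      refine Finset.sum_congr rfl fun n _ => ?_
      rw [indicator_apply, indicator_apply]
      split_ifs <;> simp
  funext n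
  have h1 : RCLike.re (a n) = 0 := congrFun hre n
  have h2 : RCLike.im (a n) = 0 := congrFun him n
  exact RCLike.ext (by rw [h1]; simp) (by rw [h2]; simp)

/-- the space is not separable -/
theorem not_separable [Uncountable Γ] (p : Γ → K) (hAb : ∀ γ ℓ, node (p γ) ℓ ∈ A γ)
    (hAD : ∀ γ γ', γ ≠ γ' → (A γ ∩ A γ').Finite) :
    ¬ TopologicalSpace.SeparableSpace (ES 𝕜 A) := by
  intro hsep
  have hdist : ∀ γ γ', γ ≠ γ' → 1 ≤ dist (uu 𝕜 A γ) (uu 𝕜 A γ') := by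
    intro γ γ' hne
    obtain ⟨b, hb⟩ := (hAD γ γ' hne).bddAbove
    have h1 : node (p γ) (b + 1) ∉ A γ' := by
      intro h2
      have h3 := hb ⟨hAb γ (b + 1), h2⟩
      have h4 := le_node (p γ) (b + 1)
      omega
    rw [dist_eq_norm]
    have h2 := norm_apply_le 𝕜 A (uu 𝕜 A γ - uu 𝕜 A γ') (node (p γ) (b + 1))
    have h3 : (uu 𝕜 A γ - uu 𝕜 A γ').1 (node (p γ) (b + 1)) =
        (uu 𝕜 A γ).1 (node (p γ) (b + 1)) - (uu 𝕜 A γ').1 (node (p γ) (b + 1)) := rfl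
    rw [h3, uu_apply, uu_apply, if_pos (hAb γ _), if_neg h1, sub_zero, norm_one] at h2
    exact h2
  have h1 : (univ : Set Γ).Countable := by
    apply Set.PairwiseDisjoint.countable_of_isOpen (s := fun γ => Metric.ball (uu 𝕜 A γ) (1 / 2))
    · intro γ _ γ' _ hne
      apply Metric.ball_disjoint_ball
      have := hdist γ γ' hne
      linarith
    · intro γ _
      exact Metric.isOpen_ball
    · intro γ _
      exact ⟨_, Metric.mem_ball_self (by norm_num)⟩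
  exact not_countable (Set.countable_univ_iff.1 h1)

/-- **The counterexample.** -/
theorem counterexample (𝕜 : Type) [RCLike 𝕜] :
    ∃ (E : Type) (_ : NormedAddCommGroup E) (_ : NormedSpace 𝕜 E), CompleteSpace E ∧
      (∃ h : ℕ → WeakDual 𝕜 E, IsWeakStarBasis 𝕜 h) ∧
      ¬ ∃ h : ℕ → WeakDual 𝕜 E, IsWeakStarSchauderBasis 𝕜 h := by
  obtain ⟨Γ, p, A, hΓ, hAb, hAD, hU⟩ := exists_family
  refine ⟨ES 𝕜 A, inferInstance, inferInstance, inferInstance,
    ⟨fun n => StrongDual.toWeakDual (hh 𝕜 A n), ?_⟩, ?_⟩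
  · intro f
    have hval : ∀ (a : ℕ → 𝕜) (N : ℕ) (x : ES 𝕜 A),
        (∑ n ∈ Finset.range N, a n • StrongDual.toWeakDual (hh 𝕜 A n) : WeakDual 𝕜 (ES 𝕜 A)) x =
          SS 𝕜 A a N x := by
      intro a N x
      have h1 : (∑ n ∈ Finset.range N, a n • StrongDual.toWeakDual (hh 𝕜 A n) :
          WeakDual 𝕜 (ES 𝕜 A)) = StrongDual.toWeakDual (SS 𝕜 A a N) := by
        rw [SS, map_sum]
        rfl
      rw [h1]
      rfl
    refine ⟨co p (WeakDual.toStrongDual f), ?_, ?_⟩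
    · show Tendsto _ _ _
      rw [tendsto_weak_iff]
      intro x
      simp only [hval]
      exact existence p hAb hAD (WeakDual.toStrongDual f) x
    · intro a ha
      have ha' : Tendsto (fun N => ∑ n ∈ Finset.range N,
        a n • StrongDual.toWeakDual (hh 𝕜 A n)) atTop (𝓝 f) := ha
      rw [tendsto_weak_iff] at ha'
      simp only [hval] at ha'
      have h1 : (fun n => a n - co p (WeakDual.toStrongDual f) n) = 0 := by
        apply uniqueness hU
        intro x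
        have h2 := (ha' x).sub (existence p hAb hAD (WeakDual.toStrongDual f) x)
        have h3 : f x - (WeakDual.toStrongDual f) x = 0 := sub_self _
        rw [h3] at h2
        refine h2.congr fun N => ?_
        rw [SS_apply, SS_apply, SS_apply, ← Finset.sum_sub_distrib]
        exact Finset.sum_congr rfl fun n _ => by ring
      funext n
      exact sub_eq_zero.1 (congrFun h1 n)
  · rintro ⟨h, hh⟩
    exact not_separable p hAb hAD (separable_of_schauder hh)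

end Pool.Agent.Work.MP_605a0d_an
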