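import Pool.Agent.Work.MP_605a0d_an.Median

/-!
# MP_605a0d_an : the chain lemma
-/

set_option autoImplicit false

namespace Pool.Agent.Work.MP_605a0d_an

open Filter MeasureTheory Set

/-- the killers of the chain `S A` -/
structure Null (A : Set W) (ν : Measure V) : Prop where
  k0 : ∀ k, ν (NC k) = 0
  k1 : ∀ s ∈ S A, ∀ n : ℕ, ν (Lo s ∪ Up (sh s n))ᶜ = 0
  k2 : ∀ s ∈ S A, ∀ t ∈ S (below A s), ∀ n : ℕ, ν (Lo (sh (-t) (-n)) ∪ Up s)ᶜ = 0
  k3 : ∀ a ∈ A, ∀ n : ℕ, ν (Lo (sh (-a) (-n)))ᶜ = 0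
  k4 : ∀ s ∈ S A, ∀ w : W, w ≠ s → (∀ᶠ k in atTop, w k = s k) → ν {code w} = 0

lemma measurableSet_Lo (w : W) : MeasurableSet (Lo w) :=
  (isGδ_compl_Lo w).measurableSet.of_compl

lemma measurableSet_Up (w : W) : MeasurableSet (Up w) :=
  (isGδ_compl_Up w).measurableSet.of_compl

lemma countable_eventually_eq (s : W) : {w : W | ∀ᶠ k in atTop, w k = s k}.Countable := by
  have h1 : {w : W | ∀ᶠ k in atTop, w k = s k} =
      ⋃ n : ℕ, {w : W | ∀ k, n ≤ k → w k = s k} := by
    ext w; simp [eventually_atTop]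
  rw [h1]
  refine countable_iUnion fun n => ?_
  have h2 : Function.Injective (fun w : {w : W | ∀ k, n ≤ k → w k = s k} =>
      fun i : Fin n => (w : W) i) := by
    intro w w' h
    ext k
    by_cases hk : k < n
    · exact congrFun h ⟨k, hk⟩
    · rw [w.2 k (not_lt.1 hk), w'.2 k (not_lt.1 hk)]
  exact h2.countable

/-- **Chain lemma.** -/
theorem chain_lemma (A : Set W) (ν : Measure V) [IsFiniteMeasure ν] (h0 : ν ≠ 0)
    (hν : Null A ν) : ∃ s ∈ S A, ν {code s} ≠ 0 := by
  by_cases hcase : ∀ s ∈ S A, ν (Lo s) = 0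
  · exfalso
    -- everything lies above the chain
    have h1 : ∀ s ∈ S A, ∀ n : ℕ, ν (Up (sh s n))ᶜ = 0 := by
      intro s hs n
      have h2 : (Up (sh s n))ᶜ ⊆ Lo s ∪ (Lo s ∪ Up (sh s n))ᶜ := by
        intro y hy
        by_cases hyL : y ∈ Lo s
        · exact Or.inl hyL
        · right
          rintro (h | h)
          · exact hyL h
          · exact hy h
      exact measure_mono_null h2 (measure_union_null (hcase s hs) (hν.k1 s hs n))
    obtain ⟨e, he1, he2⟩ := median ν h0 hν.k0 {w | ∃ s ∈ S A, ∃ n : ℕ, w = sh s n}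
      {w | ∃ a ∈ A, ∃ n : ℕ, w = sh (-a) (-n)}
      (by rintro w ⟨s, hs, n, rfl⟩; exact h1 s hs n)
      (by rintro w ⟨a, ha, n, rfl⟩; exact hν.k3 a ha n)
    have he3 : e ∈ U A := fun a ha => lt_of_forall_le_sh fun n => he2 _ ⟨a, ha, n, rfl⟩
    obtain ⟨s, hs, hns⟩ := S_unbounded A e he3
    exact hns (lt_of_forall_sh_le fun n => he1 _ ⟨s, hs, n, rfl⟩)
  · push Not at hcase
    obtain ⟨s, hsS', hmin⟩ := S_min A {s | s ∈ S A ∧ ν (Lo s) ≠ 0} (fun s hs => hs.1) hcase
    obtain ⟨hs, hs0⟩ := hsS'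
    have hbelow : ∀ a ∈ below A s, ν (Lo a) = 0 := by
      rintro a ⟨ha, has⟩
      by_contra hcon
      rcases hmin a ⟨ha, hcon⟩ with h | h
      · rw [h] at has; exact Lt.irrefl _ has
      · exact Lt.irrefl _ (h.trans has)
    -- the part of `Lo s` outside `Up s` is null
    have hnull : ν (Lo s \ Up s) = 0 := by
      by_contra hne
      set ρ := ν.restrict (Lo s \ Up s) with hρ
      have hρ0 : ρ ≠ 0 := by
        rw [hρ, Ne, Measure.restrict_eq_zero]; exact hne
      have hle : ∀ C : Set V, ν C = 0 → ρ C = 0 := fun C hC =>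
        le_antisymm ((Measure.restrict_apply_le _ _).trans hC.le) zero_le
      have hUp : ρ (Up s) = 0 := by
        rw [hρ, Measure.restrict_apply (measurableSet_Up s)]
        have : Up s ∩ (Lo s \ Up s) = ∅ := by
          ext y; simp only [mem_inter_iff, Set.mem_sdiff, mem_empty_iff_false, iff_false]
          rintro ⟨h1, _, h2⟩; exact h2 h1
        rw [this, measure_empty]
      have h1 : ∀ a ∈ below A s, ∀ n : ℕ, ρ (Up (sh a n))ᶜ = 0 := by
        intro a ha n
        apply hle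
        have h2 : (Up (sh a n))ᶜ ⊆ Lo a ∪ (Lo a ∪ Up (sh a n))ᶜ := by
          intro y hy
          by_cases hyL : y ∈ Lo a
          · exact Or.inl hyL
          · right
            rintro (h | h)
            · exact hyL h
            · exact hy h
        exact measure_mono_null h2 (measure_union_null (hbelow a ha) (hν.k1 a ha.1 n))
      have h2 : ∀ t ∈ S (below A s), ∀ n : ℕ, ρ (Lo (sh (-t) (-n)))ᶜ = 0 := by
        intro t ht n
        have h3 : (Lo (sh (-t) (-n)))ᶜ ⊆ Up s ∪ (Lo (sh (-t) (-n)) ∪ Up s)ᶜ := by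
          intro y hy
          by_cases hyL : y ∈ Up s
          · exact Or.inl hyL
          · right
            rintro (h | h)
            · exact hy h
            · exact hyL h
        exact measure_mono_null h3 (measure_union_null hUp (hle _ (hν.k2 s hs t ht n)))
      obtain ⟨e, he1, he2⟩ := median ρ hρ0 (fun k => hle _ (hν.k0 k))
        {w | ∃ a ∈ below A s, ∃ n : ℕ, w = sh a n}
        {w | ∃ t ∈ S (below A s), ∃ n : ℕ, w = sh (-t) (-n)}
        (by rintro w ⟨a, ha, n, rfl⟩; exact h1 a ha n)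
        (by rintro w ⟨t, ht, n, rfl⟩; exact h2 t ht n)
      have he3 : -e ∈ U (below A s) := by
        intro a ha
        exact (lt_of_forall_sh_le fun n => he1 _ ⟨a, ha, n, rfl⟩ : Lt a e).neg
      obtain ⟨t, ht, hnt⟩ := S_unbounded _ _ he3
      apply hnt
      have h4 : Lt e (-t) := lt_of_forall_le_sh fun n => he2 _ ⟨t, ht, n, rfl⟩
      have h5 := h4.neg
      rwa [neg_neg] at h5
    have h1 : ν (Lo s ∩ Up s) ≠ 0 := by
      intro h2
      apply hs0
      rw [← inter_union_sdiff (Lo s) (Up s)]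
      exact measure_union_null h2 hnull
    -- pass to codes
    have h2 : ν ((Lo s ∩ Up s) \ ⋃ k, NC k) ≠ 0 := by
      intro h3
      apply h1
      apply measure_mono_null (t := ((Lo s ∩ Up s) \ ⋃ k, NC k) ∪ ⋃ k, NC k)
      · intro y hy
        by_cases hy2 : y ∈ ⋃ k, NC k
        · exact Or.inr hy2
        · exact Or.inl ⟨hy, hy2⟩
      · exact measure_union_null h3 (measure_iUnion_null hν.k0)
    have h3 : (Lo s ∩ Up s) \ ⋃ k, NC k ⊆ ⋃ w ∈ {w : W | ∀ᶠ k in atTop, w k = s k}, {code w} := by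
      rintro y ⟨⟨hy1, hy2⟩, hy3⟩
      obtain ⟨w, rfl⟩ := exists_code fun k hk => hy3 (mem_iUnion.2 ⟨k, hk⟩)
      simp only [mem_iUnion]
      exact ⟨w, eventually_eq_of_mem hy1 hy2, rfl⟩
    refine ⟨s, hs, fun h4 => h2 ?_⟩
    apply measure_mono_null h3
    rw [measure_biUnion_null_iff (countable_eventually_eq s)]
    intro w hw
    by_cases hws : w = s
    · rw [hws]; exact h4
    · exact hν.k4 s hs w hws hw

end Pool.Agent.Work.MP_605a0d_an
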