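import Pool.Agent.Work.MP_605a0d_an.Iterate

/-!
# MP_605a0d_an : the combinatorial core on the Cantor space
-/

set_option autoImplicit false

namespace Pool.Agent.Work.MP_605a0d_an

open Filter MeasureTheory Set

/-- the Cantor space -/
abbrev K := ℕ → Bool

/-- good paths -/
abbrev GP := {σ : List W // Good σ}

/-- a coding of the coordinates -/
noncomputable def eqv : ℕ × ℕ × ℤ ≃ ℕ := Denumerable.eqv _

noncomputable def toX (y : K) : ℕ → V := fun i k j => y (eqv (i, k, j))

noncomputable def ofX (x : ℕ → V) : K := fun m =>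
  x (eqv.symm m).1 (eqv.symm m).2.1 (eqv.symm m).2.2

lemma toX_ofX (x : ℕ → V) : toX (ofX x) = x := by
  funext i k j
  simp [toX, ofX]

lemma ofX_toX (y : K) : ofX (toX y) = y := by
  funext m
  simp [toX, ofX]

lemma continuous_toX : Continuous toX :=
  continuous_pi fun _ => continuous_pi fun _ => continuous_pi fun _ => continuous_apply _

/-- countable sets of sequences are bounded -/
lemma exists_bound (C : Set W) (hC : C.Countable) : ∃ g : W, ∀ s ∈ C, ∀ᶠ k in atTop, s k ≤ g k := by
  rcases C.eq_empty_or_nonempty with rfl | hne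
  · exact ⟨0, fun s hs => absurd hs (notMem_empty s)⟩
  · obtain ⟨f, rfl⟩ := hC.exists_eq_range hne
    refine ⟨fun k => ∑ n ∈ Finset.range (k + 1), |f n k|, ?_⟩
    rintro _ ⟨n, rfl⟩
    filter_upwards [eventually_ge_atTop n] with k hk
    calc f n k ≤ |f n k| := le_abs_self _
      _ ≤ ∑ n ∈ Finset.range (k + 1), |f n k| :=
        Finset.single_le_sum (f := fun n => |f n k|) (fun i _ => abs_nonneg _)
          (Finset.mem_range.2 (by omega))

lemma not_countable_S : ¬ (S ∅).Countable := by
  intro h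
  obtain ⟨g, hg⟩ := exists_bound _ h
  obtain ⟨s, hs, hs2⟩ := S_empty_unbounded g
  obtain ⟨k, hk1, hk2⟩ := (hs2.and_eventually (hg s hs)).exists
  omega

lemma uncountable_GP : Uncountable GP := by
  rw [← not_countable_iff]
  intro hc
  apply not_countable_S
  have : Function.Injective (fun s : S ∅ => (⟨[s.1], ⟨s.2, trivial⟩⟩ : GP)) := by
    intro s t h
    have h1 : [s.1] = [t.1] := congrArg Subtype.val h
    exact Subtype.ext (List.head_eq_of_cons_eq h1)
  exact this.countable

/-- the functions attached to good paths -/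
def FF : List W → ℕ → ℕ
  | [] => 0
  | s :: _ => fun k => (s k).toNat

/-- **The combinatorial core.** -/
theorem core : ∃ (Γ : Type) (p : Γ → K) (J : Type) (G : J → Set K) (F : Γ → ℕ → ℕ)
    (ι : J × Γ × ℕ → Γ), Function.Injective p ∧ Uncountable Γ ∧ (∀ j, IsGδ (G j)) ∧
    (∀ j γ, p γ ∉ G j) ∧
    (∀ μ : Measure K, IsFiniteMeasure μ → (∀ j, μ (G j) = 0) → (∀ γ, μ {p γ} = 0) → μ = 0) ∧
    (∀ g : ℕ → ℕ, ∃ γ, ∃ᶠ k in atTop, g k < F γ k) ∧ Function.Injective ι := by
  have hunc := uncountable_GP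
  have hinf : Infinite GP := inferInstance
  have hcard : Cardinal.mk ((GP × GP × ℕ × ℕ) × GP × ℕ) ≤ Cardinal.mk GP := by
    have h0 : Cardinal.aleph0 ≤ Cardinal.mk GP := Cardinal.aleph0_le_mk GP
    have h1 : Cardinal.mk GP * Cardinal.mk GP = Cardinal.mk GP := Cardinal.mul_eq_self h0
    have h2 : Cardinal.mk GP * Cardinal.aleph0 = Cardinal.mk GP :=
      Cardinal.mul_aleph0_eq h0
    simp only [Cardinal.mk_prod, Cardinal.lift_id, Cardinal.mk_nat, Cardinal.aleph0_mul_aleph0,
      h2, h1]
    exact le_rfl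
  obtain ⟨ι⟩ := Cardinal.le_def _ _ |>.1 hcard
  refine ⟨GP, fun γ => ofX (pt γ.1), GP × GP × ℕ × ℕ,
    fun j => toX ⁻¹' KK j.1.1 j.2.1.1 j.2.2.1 j.2.2.2, fun γ => FF γ.1, ι, ?_, hunc, ?_, ?_, ?_,
    ?_, ι.injective⟩
  · intro γ δ h
    apply Subtype.ext
    apply pt_injective
    have := congrArg toX h
    simpa only [toX_ofX] using this
  · intro j
    exact (isGδ_KK _ _ _ _).preimage continuous_toX
  · intro j γ h
    have h1 : toX (ofX (pt γ.1)) ∈ KK j.1.1 j.2.1.1 j.2.2.1 j.2.2.2 := h
    rw [toX_ofX] at h1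
    exact notMem_KK j.1.2 γ.2 _ _ h1
  · intro μ hμ hG hp
    have hm : Measurable toX := measurable_pi_lambda _ fun i => measurable_pi_lambda _ fun k =>
      measurable_pi_lambda _ fun j => measurable_pi_apply (eqv (i, k, j))
    have h1 : Measure.map toX μ = 0 := by
      have : IsFiniteMeasure (Measure.map toX μ) := inferInstance
      apply kill_measure
      · intro σ τ hσ hτ n m
        rw [Measure.map_apply hm (isGδ_KK _ _ _ _).measurableSet]
        exact hG (⟨σ, hσ⟩, ⟨τ, hτ⟩, n, m)
      · intro σ hσ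
        rw [Measure.map_apply hm (measurableSet_singleton _)]
        have : toX ⁻¹' {pt σ} = {ofX (pt σ)} := by
          ext y
          simp only [mem_preimage, mem_singleton_iff]
          constructor
          · intro h; rw [← h, ofX_toX]
          · intro h; rw [h, toX_ofX]
        rw [this]
        exact hp ⟨σ, hσ⟩
    rw [← Measure.measure_univ_eq_zero]
    have h2 : Measure.map toX μ univ = 0 := by rw [h1]; simp
    rwa [Measure.map_apply hm MeasurableSet.univ, preimage_univ] at h2
  · intro g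
    obtain ⟨s, hs, hs2⟩ := S_empty_unbounded (fun k => (g k : ℤ))
    refine ⟨⟨[s], ⟨hs, trivial⟩⟩, ?_⟩
    refine hs2.mono fun k hk => ?_
    show g k < (s k).toNat
    omega

end Pool.Agent.Work.MP_605a0d_an
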