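import Mathlib

/-!
# MP_605a0d_an : weak* bases and weak* Schauder bases
-/

set_option autoImplicit false

namespace Pool.Agent.Work.MP_605a0d_an

open Filter Topology

variable (𝕜 : Type*) [RCLike 𝕜] {E : Type*} [NormedAddCommGroup E] [NormedSpace 𝕜 E]

/-- `(h n)` is a weak* basis of the dual of `E`: every `f` in the dual has a unique expansion
`f = ∑ a n • h n`, the series converging in the weak* topology. -/
def IsWeakStarBasis (h : ℕ → WeakDual 𝕜 E) : Prop :=
  ∀ f : WeakDual 𝕜 E, ∃! a : ℕ → 𝕜,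
    Tendsto (fun N => ∑ n ∈ Finset.range N, a n • h n) atTop (𝓝 f)

variable {𝕜} in
/-- The `n`-th coefficient functional of a weak* basis. -/
noncomputable def coeff {h : ℕ → WeakDual 𝕜 E} (hh : IsWeakStarBasis 𝕜 h) (n : ℕ)
    (f : WeakDual 𝕜 E) : 𝕜 := (hh f).choose n

/-- `(h n)` is a weak* Schauder basis of the dual of `E`: a weak* basis all of whose coefficient
functionals are weak*-continuous. -/
def IsWeakStarSchauderBasis (h : ℕ → WeakDual 𝕜 E) : Prop :=
  ∃ hh : IsWeakStarBasis 𝕜 h, ∀ n, Continuous fun f : WeakDual 𝕜 E => coeff hh n f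

end Pool.Agent.Work.MP_605a0d_an
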