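import Pool.Agent.Work.MP_605a0d_an.AbsMeasure

/-!
# MP_605a0d_an : the almost disjoint family on the tree
-/

set_option autoImplicit false

namespace Pool.Agent.Work.MP_605a0d_an

open Filter MeasureTheory Set Topology

/-- the union of the first cylinders inside a set -/
def EE (O : Set K) (i : ℕ) : Set K := {r | ∃ s, s ≤ i ∧ r ∈ Cyl s ∧ Cyl s ⊆ O}

lemma EE_subset (O : Set K) (i : ℕ) : EE O i ⊆ O := by
  rintro r ⟨s, _, h1, h2⟩; exact h2 h1

lemma EE_mono (O : Set K) : Monotone (EE O) := by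
  rintro i j hij r ⟨s, h0, h1, h2⟩; exact ⟨s, h0.trans hij, h1, h2⟩

lemma iUnion_EE {O : Set K} (hO : IsOpen O) : ⋃ i, EE O i = O := by
  apply Subset.antisymm (iUnion_subset fun i => EE_subset O i)
  intro r hr
  obtain ⟨ℓ, hℓ⟩ := exists_Cyl_of_mem hO hr
  exact mem_iUnion.2 ⟨node r ℓ, node r ℓ, le_rfl, mem_Cyl_node r ℓ, hℓ⟩

lemma measurableSet_EE (O : Set K) (i : ℕ) : MeasurableSet (EE O i) := by
  have : EE O i = ⋃ s : {s : ℕ // s ≤ i ∧ Cyl s ⊆ O}, Cyl s.1 := by
    ext r
    simp only [EE, Set.mem_ofPred_eq, mem_iUnion]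
    constructor
    · rintro ⟨s, h0, h1, h2⟩; exact ⟨⟨s, h0, h2⟩, h1⟩
    · rintro ⟨s, h1⟩; exact ⟨s.1, s.2.1, h1, s.2.2⟩
  rw [this]
  exact MeasurableSet.iUnion fun s => measurableSet_Cyl _

lemma mem_EE_iff (O : Set K) (i L : ℕ) (h : i ≤ L) (r : K) :
    r ∈ EE O i ↔ Cyl (node r L) ⊆ EE O i := by
  constructor
  · rintro ⟨s, h0, h1, h2⟩
    have h3 : Cyl (node r L) ⊆ Cyl s := by
      apply Cyl_subset h1 (mem_Cyl_node r L)
      rw [lv_node]
      exact (lv_le s).trans (h0.trans h)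
    intro r' hr'
    exact ⟨s, h0, h3 hr', h2⟩
  · intro h1; exact h1 (mem_Cyl_node r L)

/-- the almost disjoint family attached to killing data -/
theorem exists_family : ∃ (Γ : Type) (p : Γ → K) (A : Γ → Set ℕ), Uncountable Γ ∧
    (∀ γ ℓ, node (p γ) ℓ ∈ A γ) ∧ (∀ γ γ', γ ≠ γ' → (A γ ∩ A γ').Finite) ∧
    (∀ a : ℕ → ℝ, (∀ n, a n = a (2 * n + 1) + a (2 * n + 2)) →
      (∀ C : ℝ, (∀ ℓ, ∑ n ∈ Lv ℓ, |a n| ≤ C) →
        (∀ γ, Tendsto (fun ℓ => ∑ n ∈ Lv ℓ, (A γ).indicator a n) atTop (𝓝 0)) → a = 0)) := by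
  classical
  obtain ⟨Γ, p, J, G, F, ι, hp, hΓ, hG, hpG, hkill, hF, hι⟩ := core
  have hU : ∀ j, ∃ U : ℕ → Set K, (∀ k, IsOpen (U k)) ∧ G j = ⋂ k, U k := fun j =>
    isGδ_iff_eq_iInter_nat.1 (hG j)
  choose U hUo hUG using hU
  -- decreasing open sets
  let U' : J → ℕ → Set K := fun j k => ⋂ i ∈ Finset.range (k + 1), U j i
  have hU'o : ∀ j k, IsOpen (U' j k) := fun j k => isOpen_biInter_finset fun i _ => hUo j i
  have hU'anti : ∀ j, Antitone (U' j) := by
    intro j k l hkl r hr
    simp only [U', mem_iInter, Finset.mem_range] at hr ⊢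
    exact fun i hi => hr i (by omega)
  have hU'G : ∀ j, ⋂ k, U' j k = G j := by
    intro j
    rw [hUG]
    ext r
    simp only [U', mem_iInter, Finset.mem_range]
    constructor
    · intro h i; exact h i i (by omega)
    · intro h k i _; exact h i
  -- the bursts
  have hD : ∀ γ, ∃ (D : ℕ → Set K) (req : ℕ → ℕ),
      (∀ k L, req k ≤ L → ∀ r, r ∈ D k ↔ Cyl (node r L) ⊆ D k) ∧
      (∀ γ', ∀ᶠ k in atTop, p γ' ∉ D k) ∧
      (∀ t, ι t = γ → ∀ k, D k = EE (U' t.1 k ∩ Cyl t.2.2) (F t.2.1 k)) := by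
    intro γ
    by_cases h : ∃ t, ι t = γ
    · obtain ⟨t, ht⟩ := h
      refine ⟨fun k => EE (U' t.1 k ∩ Cyl t.2.2) (F t.2.1 k), fun k => F t.2.1 k, ?_, ?_, ?_⟩
      · intro k L hL r
        exact mem_EE_iff _ _ _ hL r
      · intro γ'
        have h1 : p γ' ∉ ⋂ k, U' t.1 k := by rw [hU'G]; exact hpG _ _
        rw [mem_iInter, not_forall] at h1
        obtain ⟨k0, hk0⟩ := h1
        filter_upwards [eventually_ge_atTop k0] with k hk h2
        exact hk0 (hU'anti _ hk ((EE_subset _ _ h2).1))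
      · intro t' ht' k
        have : t' = t := hι (ht'.trans ht.symm)
        rw [this]
    · refine ⟨fun _ => ∅, fun _ => 0, ?_, ?_, ?_⟩
      · intro k L _ r
        simp only [mem_empty_iff_false, false_iff]
        intro h1
        exact h1 (mem_Cyl_node r L)
      · intro γ'
        exact Eventually.of_forall fun k => notMem_empty _
      · intro t ht
        exact absurd ⟨t, ht⟩ h
  choose D req hD1 hD2 hD3 using hD
  -- the levels of the bursts
  let idx : Γ → ℕ → ℕ := fun γ k => k + ∑ i ∈ Finset.range (k + 1), req γ i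
  let lam : Γ → ℕ → ℕ := fun γ k => 2 * node (p γ) (idx γ k)
  have hidx : ∀ γ, StrictMono (idx γ) := by
    intro γ
    apply strictMono_nat_of_lt_succ
    intro k
    simp only [idx]
    rw [Finset.sum_range_succ _ (k + 1)]
    omega
  have hlam : ∀ γ, StrictMono (lam γ) := by
    intro γ k l hkl
    have := node_strictMono (p γ) (hidx γ hkl)
    simp only [lam]
    omega
  have hreq : ∀ γ k, req γ k ≤ lam γ k := by
    intro γ k
    have h1 : req γ k ≤ ∑ i ∈ Finset.range (k + 1), req γ i :=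
      Finset.single_le_sum (f := fun i => req γ i) (fun i _ => Nat.zero_le _)
        (Finset.mem_range.2 (by omega))
    have h2 := le_node (p γ) (idx γ k)
    simp only [lam, idx] at *
    omega
  let A : Γ → Set ℕ := fun γ =>
    {n | n = node (p γ) (lv n) ∨ ∃ k, lv n = lam γ k ∧ Cyl n ⊆ D γ k}
  have hAb : ∀ γ ℓ, node (p γ) ℓ ∈ A γ := by
    intro γ ℓ
    left
    rw [lv_node]
  have hAD : ∀ γ γ', γ ≠ γ' → (A γ ∩ A γ').Finite := by
    intro γ γ' hne
    have hpne : p γ ≠ p γ' := fun h => hne (hp h)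
    obtain ⟨i0, hi0⟩ := Function.ne_iff.1 hpne
    have hsep : ∀ ℓ, node (p γ) ℓ = node (p γ') ℓ → ℓ ≤ i0 := by
      intro ℓ hℓ
      by_contra hcon
      exact hi0 ((node_eq_iff _ _ ℓ).1 hℓ i0 (by omega))
    obtain ⟨k1, hk1⟩ := eventually_atTop.1 (hD2 γ γ')
    obtain ⟨k2, hk2⟩ := eventually_atTop.1 (hD2 γ' γ)
    let B := max (max i0 (lam γ k1)) (max (lam γ' k2) (2 * node (p γ) i0))
    have hB : ∀ n ∈ A γ ∩ A γ', lv n ≤ B := by
      rintro n ⟨h1, h2⟩
      rcases h1 with h1 | ⟨k, h1, h1'⟩ <;> rcases h2 with h2 | ⟨l, h2, h2'⟩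
      · have := hsep (lv n) (h1.symm.trans h2)
        exact this.trans ((le_max_left _ _).trans (le_max_left _ _))
      · have h3 : p γ ∈ Cyl n := by rw [mem_Cyl]; exact h1.symm
        have h4 : l < k2 := by
          by_contra hcon
          exact hk2 l (not_lt.1 hcon) (h2' h3)
        rw [h2]
        exact ((hlam γ').monotone h4.le).trans ((le_max_left _ _).trans (le_max_right _ _))
      · have h3 : p γ' ∈ Cyl n := by rw [mem_Cyl]; exact h2.symm
        have h4 : k < k1 := by
          by_contra hcon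
          exact hk1 k (not_lt.1 hcon) (h1' h3)
        rw [h1]
        exact ((hlam γ).monotone h4.le).trans ((le_max_right _ _).trans (le_max_left _ _))
      · have h3 : node (p γ) (idx γ k) = node (p γ') (idx γ' l) := by
          have : 2 * node (p γ) (idx γ k) = 2 * node (p γ') (idx γ' l) := h1.symm.trans h2
          omega
        have h4 : idx γ k = idx γ' l := by
          rw [← lv_node (p γ) (idx γ k), h3, lv_node]
        rw [← h4] at h3
        have h5 := hsep _ h3
        have h6 := (node_strictMono (p γ)).monotone h5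
        have h7 : lv n ≤ 2 * node (p γ) i0 := by
          rw [h1]
          simp only [lam]
          omega
        exact h7.trans ((le_max_right _ _).trans (le_max_right _ _))
    apply (finite_lt_nat (2 ^ (B + 1))).subset
    intro n hn
    have h1 := lt_of_lv n
    have h2 : 2 ^ (lv n + 1) ≤ 2 ^ (B + 1) :=
      Nat.pow_le_pow_right (by norm_num) (Nat.add_le_add_right (hB n hn) 1)
    show n < 2 ^ (B + 1)
    omega
  refine ⟨Γ, p, A, hΓ, hAb, hAD, ?_⟩
  intro a ha C hC hA
  by_contra ha0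
  obtain ⟨μ, ν, hμ, hν, hμν⟩ := exists_two_measures a ha C hC
  obtain ⟨τ, hτ, hτ1, hτ2⟩ := exists_abs μ ν
  have hlevel : ∀ (B : Set ℕ) ℓ, ∑ n ∈ Lv ℓ, B.indicator a n =
      μ.real {r | node r ℓ ∈ B} - ν.real {r | node r ℓ ∈ B} := by
    intro B ℓ
    rw [measure_level μ ℓ B, measure_level ν ℓ B, ← Finset.sum_sub_distrib]
    apply Finset.sum_congr rfl
    intro n _
    rw [indicator_apply]
    split_ifs
    · exact hμν n
    · simp
  have hτ0 : τ ≠ 0 := by
    intro h
    apply ha0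
    funext n
    have h1 := hτ1 (Cyl n) (measurableSet_Cyl n)
    rw [← hμν n, h] at h1
    simpa using h1
  -- continuity along branches
  have hbranch : ∀ (κ : Measure K) [IsFiniteMeasure κ] (r : K),
      Tendsto (fun ℓ => κ.real (Cyl (node r ℓ))) atTop (𝓝 (κ.real {r})) := by
    intro κ _ r
    have h1 := tendsto_measure_iInter_atTop (μ := κ) (s := fun ℓ => Cyl (node r ℓ))
      (fun ℓ => (measurableSet_Cyl _).nullMeasurableSet) (antitone_Cyl_node r)
      ⟨0, measure_ne_top _ _⟩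
    rw [iInter_Cyl_node] at h1
    exact (ENNReal.tendsto_toReal (measure_ne_top _ _)).comp h1
  have step1 : ∀ γ, τ {p γ} = 0 := by
    intro γ
    apply hτ2 _ (measurableSet_singleton _)
    have h1 : μ {p γ} = ν {p γ} := by
      have h2 := hbranch μ (p γ)
      have h3 := hbranch ν (p γ)
      have h4 : Tendsto (fun i : ℕ => 2 * i + 1) atTop atTop := by
        apply tendsto_atTop_mono (f := fun i : ℕ => i) (fun i => by omega) tendsto_id
      have h5 := (h2.sub h3).comp h4
      have h6 := (hA γ).comp h4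
      have h7 : ∀ i : ℕ, ({r : K | node r (2 * i + 1) ∈ A γ} : Set K) =
          Cyl (node (p γ) (2 * i + 1)) := by
        intro i
        ext r
        rw [mem_Cyl, lv_node]
        constructor
        · rintro (h | ⟨k, h, _⟩)
          · rw [lv_node] at h; exact h
          · rw [lv_node] at h
            simp only [lam] at h
            omega
        · intro h
          left
          rw [lv_node]
          exact h
      have h8 : (fun ℓ => ∑ n ∈ Lv ℓ, (A γ).indicator a n) ∘ (fun i : ℕ => 2 * i + 1) =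
          (fun ℓ => μ.real (Cyl (node (p γ) ℓ)) - ν.real (Cyl (node (p γ) ℓ))) ∘
            (fun i : ℕ => 2 * i + 1) := by
        funext i
        simp only [Function.comp]
        rw [hlevel, h7]
      rw [h8] at h6
      have h9 : μ.real {p γ} - ν.real {p γ} = 0 := tendsto_nhds_unique h5 h6
      have h10 : μ.real {p γ} = ν.real {p γ} := by linarith
      exact (ENNReal.toReal_eq_toReal_iff' (measure_ne_top _ _) (measure_ne_top _ _)).1 h10
    intro B' _ hB'
    rcases subset_singleton_iff_eq.1 hB' with rfl | rfl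
    · simp
    · exact h1
  obtain ⟨j, hj⟩ : ∃ j, τ (G j) ≠ 0 := by
    by_contra hcon
    push Not at hcon
    exact hτ0 (hkill τ hτ hcon step1)
  have hGm : MeasurableSet (G j) := (hG j).measurableSet
  obtain ⟨n0, hn0⟩ : ∃ n0, μ (Cyl n0 ∩ G j) ≠ ν (Cyl n0 ∩ G j) := by
    by_contra hcon
    push Not at hcon
    apply hj
    apply hτ2 _ hGm
    have h1 : μ.restrict (G j) = ν.restrict (G j) := by
      apply ext_Cyl
      intro n
      rw [Measure.restrict_apply (measurableSet_Cyl n), Measure.restrict_apply (measurableSet_Cyl n)]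
      exact hcon n
    intro B' hB' hsub
    have h2 : μ.restrict (G j) B' = ν.restrict (G j) B' := by rw [h1]
    rwa [Measure.restrict_apply hB', Measure.restrict_apply hB',
      inter_eq_self_of_subset_left hsub] at h2
  -- the open sets
  let O : ℕ → Set K := fun k => U' j k ∩ Cyl n0
  have hOo : ∀ k, IsOpen (O k) := fun k => (hU'o j k).inter (isClopen_Cyl n0).2
  have hOlim : ∀ (κ : Measure K) [IsFiniteMeasure κ],
      Tendsto (fun k => κ.real (O k)) atTop (𝓝 (κ.real (Cyl n0 ∩ G j))) := by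
    intro κ _
    have h1 := tendsto_measure_iInter_atTop (μ := κ) (s := O)
      (fun k => (hOo k).measurableSet.nullMeasurableSet)
      (fun k l hkl r hr => ⟨hU'anti j hkl hr.1, hr.2⟩) ⟨0, measure_ne_top _ _⟩
    have h2 : ⋂ k, O k = Cyl n0 ∩ G j := by
      rw [← hU'G j, inter_comm]
      exact (iInter_inter _ _).symm
    rw [h2] at h1
    exact (ENNReal.tendsto_toReal (measure_ne_top _ _)).comp h1
  set δ := μ.real (Cyl n0 ∩ G j) - ν.real (Cyl n0 ∩ G j) with hδ
  have hδ0 : δ ≠ 0 := by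
    intro h
    apply hn0
    have h1 : μ.real (Cyl n0 ∩ G j) = ν.real (Cyl n0 ∩ G j) := by linarith
    exact (ENNReal.toReal_eq_toReal_iff' (measure_ne_top _ _) (measure_ne_top _ _)).1 h1
  have hδpos : 0 < |δ| := abs_pos.2 hδ0
  -- approximation from inside
  have happ : ∀ k, ∃ g, ∀ i, g ≤ i → τ.real (O k \ EE (O k) i) < |δ| / 8 := by
    intro k
    have h1 : Tendsto (fun i => τ (O k \ EE (O k) i)) atTop (𝓝 (τ (⋂ i, (O k \ EE (O k) i)))) :=
      tendsto_measure_iInter_atTop
        (fun i => ((hOo k).measurableSet.diff (measurableSet_EE _ _)).nullMeasurableSet)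
        (fun i l hil r hr => ⟨hr.1, fun h => hr.2 (EE_mono _ hil h)⟩) ⟨0, measure_ne_top _ _⟩
    have h2 : ⋂ i, (O k \ EE (O k) i) = ∅ := by
      rw [eq_empty_iff_forall_notMem]
      intro r hr
      rw [mem_iInter] at hr
      have h3 : r ∈ ⋃ i, EE (O k) i := by rw [iUnion_EE (hOo k)]; exact (hr 0).1
      obtain ⟨i, hi⟩ := mem_iUnion.1 h3
      exact (hr i).2 hi
    rw [h2, measure_empty] at h1
    have h3 : Tendsto (fun i => τ.real (O k \ EE (O k) i)) atTop (𝓝 0) :=
      (ENNReal.tendsto_toReal ENNReal.zero_ne_top).comp h1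
    have h4 := h3.eventually (gt_mem_nhds (show (0 : ℝ) < |δ| / 8 by linarith))
    exact eventually_atTop.1 h4
  choose g hg using happ
  obtain ⟨γ1, hγ1⟩ := hF g
  let γ := ι (j, γ1, n0)
  have hDγ : ∀ k, D γ k = EE (O k) (F γ1 k) := fun k => hD3 γ (j, γ1, n0) rfl k
  -- limits along the bursts
  have hlamt : Tendsto (lam γ) atTop atTop := (hlam γ).tendsto_atTop
  have e1 := (hA γ).comp hlamt
  have e2 := (hbranch τ (p γ)).comp hlamt
  have e3 := (hOlim μ).sub (hOlim ν)
  have hz : τ.real {p γ} = 0 := by rw [Measure.real, step1 γ]; simp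
  rw [hz] at e2
  have hcl : ∀ k, {r : K | node r (lam γ k) ∈ A γ} = Cyl (node (p γ) (lam γ k)) ∪ D γ k := by
    intro k
    ext r
    rw [mem_union, mem_Cyl, lv_node]
    constructor
    · rintro (h | ⟨l, h, h'⟩)
      · rw [lv_node] at h; exact Or.inl h
      · rw [lv_node] at h
        have hkl : k = l := (hlam γ).injective h
        rw [← hkl] at h'
        right
        exact (hD1 γ k (lam γ k) (hreq γ k) r).2 h'
    · rintro (h | h)
      · left; rw [lv_node]; exact h
      · right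
        exact ⟨k, lv_node _ _, (hD1 γ k (lam γ k) (hreq γ k) r).1 h⟩
  have f1 : ∀ᶠ k in atTop, |μ.real (Cyl (node (p γ) (lam γ k)) ∪ D γ k) -
      ν.real (Cyl (node (p γ) (lam γ k)) ∪ D γ k)| < |δ| / 8 := by
    have h1 := e1.abs
    rw [abs_zero] at h1
    have h2 := h1.eventually (gt_mem_nhds (show (0 : ℝ) < |δ| / 8 by linarith))
    filter_upwards [h2] with k hk
    simp only [Function.comp] at hk
    rwa [hlevel, hcl] at hk
  have f2 : ∀ᶠ k in atTop, τ.real (Cyl (node (p γ) (lam γ k))) < |δ| / 8 :=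
    e2.eventually (gt_mem_nhds (show (0 : ℝ) < |δ| / 8 by linarith))
  have f3 : ∀ᶠ k in atTop, |(μ.real (O k) - ν.real (O k)) - δ| < |δ| / 8 := by
    have h1 := (e3.sub (tendsto_const_nhds (x := δ))).abs
    rw [sub_self, abs_zero] at h1
    exact h1.eventually (gt_mem_nhds (show (0 : ℝ) < |δ| / 8 by linarith))
  obtain ⟨k, hk, hk1, hk2, hk3⟩ := (hγ1.and_eventually (f1.and (f2.and f3))).exists
  have hk4 : τ.real (O k \ D γ k) < |δ| / 8 := by
    rw [hDγ k]
    exact hg k _ hk.le
  have hDm : MeasurableSet (D γ k) := by rw [hDγ k]; exact measurableSet_EE _ _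
  have hDO : D γ k ⊆ O k := by rw [hDγ k]; exact EE_subset _ _
  have hOm : MeasurableSet (O k) := (hOo k).measurableSet
  have g1 : |(μ.real (O k) - ν.real (O k)) - (μ.real (D γ k) - ν.real (D γ k))| < |δ| / 8 := by
    have h1 : μ.real (O k) = μ.real (D γ k) + μ.real (O k \ D γ k) := by
      rw [← measureReal_sdiff_add_inter (μ := μ) (s := O k) hDm,
        inter_eq_self_of_subset_right hDO, add_comm]
    have h2 : ν.real (O k) = ν.real (D γ k) + ν.real (O k \ D γ k) := by
      rw [← measureReal_sdiff_add_inter (μ := ν) (s := O k) hDm,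
        inter_eq_self_of_subset_right hDO, add_comm]
    have h3 := hτ1 (O k \ D γ k) (hOm.diff hDm)
    rw [h1, h2]
    have h4 : μ.real (D γ k) + μ.real (O k \ D γ k) - (ν.real (D γ k) + ν.real (O k \ D γ k)) -
        (μ.real (D γ k) - ν.real (D γ k)) = μ.real (O k \ D γ k) - ν.real (O k \ D γ k) := by ring
    rw [h4]
    exact lt_of_le_of_lt h3 hk4
  set Q := Cyl (node (p γ) (lam γ k)) with hQ
  have hQm : MeasurableSet Q := measurableSet_Cyl _
  have g2 : |(μ.real (Q ∪ D γ k) - ν.real (Q ∪ D γ k)) - (μ.real (D γ k) - ν.real (D γ k))| <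
      |δ| / 8 := by
    have h0 : (Q ∪ D γ k) ∩ D γ k = D γ k := inter_eq_self_of_subset_right subset_union_right
    have h1 : μ.real (Q ∪ D γ k) = μ.real (D γ k) + μ.real ((Q ∪ D γ k) \ D γ k) := by
      rw [← measureReal_sdiff_add_inter (μ := μ) (s := Q ∪ D γ k) hDm, h0, add_comm]
    have h2 : ν.real (Q ∪ D γ k) = ν.real (D γ k) + ν.real ((Q ∪ D γ k) \ D γ k) := by
      rw [← measureReal_sdiff_add_inter (μ := ν) (s := Q ∪ D γ k) hDm, h0, add_comm]
    have h3 := hτ1 ((Q ∪ D γ k) \ D γ k) ((hQm.union hDm).diff hDm)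
    have h5 : τ.real ((Q ∪ D γ k) \ D γ k) ≤ τ.real Q := by
      refine measureReal_mono ?_ (measure_ne_top _ _)
      rintro r ⟨h | h, h'⟩
      · exact h
      · exact absurd h h'
    rw [h1, h2]
    have h4 : μ.real (D γ k) + μ.real ((Q ∪ D γ k) \ D γ k) -
        (ν.real (D γ k) + ν.real ((Q ∪ D γ k) \ D γ k)) -
        (μ.real (D γ k) - ν.real (D γ k)) =
        μ.real ((Q ∪ D γ k) \ D γ k) - ν.real ((Q ∪ D γ k) \ D γ k) := by ring
    rw [h4]
    exact lt_of_le_of_lt (h3.trans h5) hk2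
  rw [abs_lt] at g1 g2 hk1 hk3
  have hfin : |δ| < |δ| / 2 + |δ| / 8 := by
    rw [abs_lt]
    constructor <;> linarith [g1.1, g1.2, g2.1, g2.2, hk1.1, hk1.2, hk3.1, hk3.2]
  linarith

end Pool.Agent.Work.MP_605a0d_an
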