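import Pool.Agent.Work.MP_605a0d_an.ChainLemma

/-!
# MP_605a0d_an : iterating the chains; the killed measures on `ℕ → V`
-/

set_option autoImplicit false

namespace Pool.Agent.Work.MP_605a0d_an

open Filter MeasureTheory Set

/-- the state reached along a (reversed) finite path -/
noncomputable def AA : List W → Set W
  | [] => ∅
  | s :: σ => below (AA σ) s

/-- the good (reversed) finite paths -/
def Good : List W → Prop
  | [] => True
  | s :: σ => s ∈ S (AA σ) ∧ Good σ

/-- the point of `ℕ → V` coding a finite path -/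
noncomputable def pt : List W → (ℕ → V)
  | [] => fun _ => dd
  | s :: σ => Function.update (pt σ) σ.length (code s)

lemma pt_cons_length (s : W) (σ : List W) : pt (s :: σ) σ.length = code s := by
  simp [pt]

lemma pt_cons_of_ne (s : W) (σ : List W) {i : ℕ} (h : i ≠ σ.length) : pt (s :: σ) i = pt σ i := by
  simp [pt, h]

lemma pt_of_ge (σ : List W) : ∀ i, σ.length ≤ i → pt σ i = dd := by
  induction σ with
  | nil => intro i _; rfl
  | cons s σ ih =>
    intro i hi
    rw [List.length_cons] at hi
    rw [pt_cons_of_ne s σ (by omega)]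
    exact ih i (by omega)

lemma pt_of_lt (σ : List W) : ∀ i, i < σ.length → pt σ i ≠ dd := by
  induction σ with
  | nil => intro i hi; simp at hi
  | cons s σ ih =>
    intro i hi
    rw [List.length_cons] at hi
    by_cases h : i = σ.length
    · rw [h, pt_cons_length]; exact code_ne_dd s
    · rw [pt_cons_of_ne s σ h]
      exact ih i (by omega)

/-- the cylinder of a path -/
def cyl (σ : List W) : Set (ℕ → V) := {x | ∀ i, i < σ.length → x i = pt σ i}

lemma agree : ∀ (σ τ : List W), σ.length = τ.length → (∀ i, i < σ.length → pt σ i = pt τ i) →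
    σ = τ := by
  intro σ
  induction σ with
  | nil =>
    intro τ h _
    exact (List.length_eq_zero_iff.1 h.symm).symm
  | cons s σ ih =>
    intro τ h h2
    cases τ with
    | nil => simp at h
    | cons t τ =>
      rw [List.length_cons, List.length_cons] at h
      have hl : σ.length = τ.length := by omega
      have h3 := h2 σ.length (by simp)
      rw [pt_cons_length, hl, pt_cons_length] at h3
      have h4 : σ = τ := ih τ hl (by
        intro i hi
        have := h2 i (by rw [List.length_cons]; omega)
        rwa [pt_cons_of_ne s σ (by omega), pt_cons_of_ne t τ (by omega)] at this)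
      rw [code_injective h3, h4]

lemma pt_injective : Function.Injective pt := by
  intro σ τ h
  have hl : σ.length = τ.length := by
    rcases lt_trichotomy σ.length τ.length with h1 | h1 | h1
    · exact absurd (by rw [← h]; exact pt_of_ge σ _ le_rfl) (pt_of_lt τ _ h1)
    · exact h1
    · exact absurd (by rw [h]; exact pt_of_ge τ _ le_rfl) (pt_of_lt σ _ h1)
  exact agree σ τ hl fun i _ => congrFun h i

lemma next_of_mem (σ : List W) : ∀ τ : List W, Good τ → pt τ ∈ cyl σ → σ.length < τ.length →
    ∃ s ∈ S (AA σ), pt τ σ.length = code s := by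
  intro τ
  induction τ with
  | nil => intro _ _ h; simp at h
  | cons t τ ih =>
    intro hg hc hl
    rw [List.length_cons] at hl
    by_cases h : σ.length < τ.length
    · have hc' : pt τ ∈ cyl σ := by
        intro i hi
        rw [← hc i hi, pt_cons_of_ne t τ (by omega)]
      obtain ⟨s, hs, hs2⟩ := ih hg.2 hc' h
      exact ⟨s, hs, by rw [pt_cons_of_ne t τ (by omega)]; exact hs2⟩
    · have hl' : σ.length = τ.length := by omega
      have : σ = τ := agree σ τ hl' (by
        intro i hi
        rw [← hc i hi, pt_cons_of_ne t τ (by omega)])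
      subst this
      exact ⟨t, hg.1, pt_cons_length t σ⟩

/-- a killer over the cylinder of `σ` -/
def killSet (σ : List W) (C : Set V) : Set (ℕ → V) :=
  {x | x ∈ cyl σ ∧ x σ.length ∈ C ∧ x σ.length ≠ dd}

lemma isClosed_cyl (σ : List W) : IsClosed (cyl σ) := by
  have : cyl σ = ⋂ i, ⋂ (_ : i < σ.length), {x : ℕ → V | x i = pt σ i} := by
    ext x; simp [cyl]
  rw [this]
  exact isClosed_iInter fun i => isClosed_iInter fun _ =>
    isClosed_singleton.preimage (continuous_apply i)

lemma isGδ_killSet (σ : List W) {C : Set V} (hC : IsGδ C) : IsGδ (killSet σ C) := by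
  have : killSet σ C = cyl σ ∩ ((fun x : ℕ → V => x σ.length) ⁻¹' C ∩
      (fun x : ℕ → V => x σ.length) ⁻¹' {dd}ᶜ) := by
    ext x; rfl
  rw [this]
  have hcont : Continuous fun x : ℕ → V => x σ.length := continuous_apply _
  exact (isClosed_cyl σ).isGδ.inter ((hC.preimage hcont).inter
    ((isClosed_singleton.isOpen_compl.preimage hcont).isGδ))

lemma notMem_killSet {σ τ : List W} (hτ : Good τ) {C : Set V}
    (hC : ∀ s ∈ S (AA σ), code s ∉ C) : pt τ ∉ killSet σ C := by
  rintro ⟨h1, h2, h3⟩
  have hl : σ.length < τ.length := by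
    by_contra hcon
    exact h3 (pt_of_ge τ _ (not_lt.1 hcon))
  obtain ⟨s, hs, hs2⟩ := next_of_mem σ τ hτ h1 hl
  exact hC s hs (hs2 ▸ h2)

/-- an enumeration of the finite modifications of `s` -/
lemma exists_enumEq (s : W) : ∃ f : ℕ → W, ∀ w : W, (∀ᶠ k in atTop, w k = s k) ↔ ∃ n, f n = w := by
  obtain ⟨f, hf⟩ := (countable_eventually_eq s).exists_eq_range ⟨s, Eventually.of_forall fun _ => rfl⟩
  refine ⟨f, fun w => ?_⟩
  have : w ∈ {w : W | ∀ᶠ k in atTop, w k = s k} ↔ w ∈ range f := by rw [hf]
  exact this

noncomputable def enumEq (s : W) : ℕ → W := (exists_enumEq s).choose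

lemma enumEq_spec (s w : W) : (∀ᶠ k in atTop, w k = s k) ↔ ∃ n, enumEq s n = w :=
  (exists_enumEq s).choose_spec w

open Classical in
/-- all the killers -/
noncomputable def KK (σ τ : List W) (n : ℕ) : ℕ → Set (ℕ → V)
  | 0 => {x | ∀ i, x i ≠ dd}
  | 1 => {x | x n = dd ∧ x (n + 1) ≠ dd}
  | 2 => killSet σ (NC n)
  | 3 => match σ with
    | [] => ∅
    | s :: σ' => killSet σ' (Lo s ∪ Up (sh s n))ᶜ
  | 4 => match σ with
    | t :: s :: σ' => killSet σ' (Lo (sh (-t) (-n)) ∪ Up s)ᶜ
    | _ => ∅
  | 5 => match τ with
    | [] => ∅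
    | a :: _ => if a ∈ AA σ then killSet σ (Lo (sh (-a) (-n)))ᶜ else ∅
  | _ => match σ with
    | [] => ∅
    | s :: σ' => if enumEq s n = s then ∅ else killSet σ' {code (enumEq s n)}

lemma isGδ_compl_union (w w' : W) : IsGδ (Lo w ∪ Up w')ᶜ := by
  rw [compl_union]
  exact (isGδ_compl_Lo w).inter (isGδ_compl_Up w')

lemma isGδ_KK (σ τ : List W) (n m : ℕ) : IsGδ (KK σ τ n m) := by
  unfold KK
  split
  · have : {x : ℕ → V | ∀ i, x i ≠ dd} = ⋂ i, (fun x : ℕ → V => x i) ⁻¹' {dd}ᶜ := by
      ext x; simp
    rw [this]
    exact IsGδ.iInter fun i => (isClosed_singleton.isOpen_compl.preimage (continuous_apply i)).isGδ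
  · have : {x : ℕ → V | x n = dd ∧ x (n + 1) ≠ dd} =
        (fun x : ℕ → V => x n) ⁻¹' {dd} ∩ (fun x : ℕ → V => x (n + 1)) ⁻¹' {dd}ᶜ := by
      ext x; simp
    rw [this]
    exact (isClosed_singleton.preimage (continuous_apply n)).isGδ.inter
      (isClosed_singleton.isOpen_compl.preimage (continuous_apply (n + 1))).isGδ
  · exact isGδ_killSet σ (isGδ_NC n)
  · split
    · exact IsGδ.empty
    · exact isGδ_killSet _ (isGδ_compl_union _ _)
  · split
    · exact isGδ_killSet _ (isGδ_compl_union _ _)
    · exact IsGδ.empty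
  · split
    · exact IsGδ.empty
    · split_ifs
      · exact isGδ_killSet _ (isGδ_compl_Lo _)
      · exact IsGδ.empty
  · split
    · exact IsGδ.empty
    · split_ifs
      · exact IsGδ.empty
      · exact isGδ_killSet _ isClosed_singleton.isGδ

lemma AA_subset_neg (σ : List W) {a s : W} (ha : a ∈ AA σ) (hs : s ∈ S (AA σ)) : Lt s (-a) :=
  S_subset _ hs a ha

lemma notMem_KK {σ τ ρ : List W} (hσ : Good σ) (hρ : Good ρ) (n m : ℕ) : pt ρ ∉ KK σ τ n m := by
  unfold KK
  split
  · intro h
    exact h ρ.length (pt_of_ge ρ _ le_rfl)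
  · rintro ⟨h1, h2⟩
    have hl : ρ.length ≤ n := by
      by_contra hcon
      exact pt_of_lt ρ n (not_le.1 hcon) h1
    exact h2 (pt_of_ge ρ _ (by omega))
  · exact notMem_killSet hρ fun s _ => code_notMem_NC s n
  · split
    · exact notMem_empty _
    · next s σ' =>
      apply notMem_killSet hρ
      intro t ht hn
      apply hn
      rcases S_chain _ hσ.1 ht with h | h | h
      · rw [h]; exact Or.inl (code_mem_Lo (Le.refl t))
      · exact Or.inr (code_mem_Up (h.sh_le n))
      · exact Or.inl (code_mem_Lo h.le)
  · split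
    · next t s σ' =>
      apply notMem_killSet hρ
      intro u hu hn
      apply hn
      have hts : t ∈ S (below (AA σ') s) := hσ.1
      rcases S_chain _ hσ.2.1 hu with h | h | h
      · rw [h]; exact Or.inr (code_mem_Up (Le.refl u))
      · exact Or.inr (code_mem_Up h.le)
      · left
        apply code_mem_Lo
        have h1 : Lt t (-u) := S_subset _ hts u ⟨hu, h⟩
        have h2 := h1.neg
        rw [neg_neg] at h2
        exact h2.le_sh n
    · exact notMem_empty _
  · split
    · exact notMem_empty _
    · split_ifs with h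
      · apply notMem_killSet hρ
        intro s hs hn
        apply hn
        exact code_mem_Lo ((AA_subset_neg σ h hs).le_sh n)
      · exact notMem_empty _
  · split
    · exact notMem_empty _
    · next s σ' =>
      split_ifs with h
      · exact notMem_empty _
      · apply notMem_killSet hρ
        intro t ht hn
        have hn' : code t = code (enumEq s n) := hn
        have h1 : t = enumEq s n := code_injective hn'
        have h2 : ∀ᶠ k in atTop, t k = s k := (enumEq_spec s t).2 ⟨n, h1.symm⟩
        rcases S_chain _ hσ.1 ht with h3 | h3 | h3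
        · rw [← h1] at h; exact h h3.symm
        · obtain ⟨k, hk1, hk2⟩ := ((h3 1).and h2).exists
          push_cast at hk1
          omega
        · obtain ⟨k, hk1, hk2⟩ := ((h3 1).and h2).exists
          push_cast at hk1
          omega

/-- **The killed measures.** -/
theorem kill_measure (μ : Measure (ℕ → V)) [IsFiniteMeasure μ]
    (hK : ∀ σ τ : List W, Good σ → Good τ → ∀ n m, μ (KK σ τ n m) = 0)
    (hZ : ∀ σ : List W, Good σ → μ {pt σ} = 0) : μ = 0 := by
  classical
  by_contra hμ
  have hnil : Good [] := trivial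
  have hmeas : ∀ (i : ℕ), MeasurableSet {x : ℕ → V | x i = dd} := fun i =>
    (isClosed_singleton.preimage (continuous_apply i) : IsClosed {x : ℕ → V | x i = dd}).measurableSet
  have hex : ∃ n, μ {x | x n = dd} ≠ 0 := by
    by_contra hcon
    push Not at hcon
    apply hμ
    rw [← Measure.measure_univ_eq_zero]
    apply measure_mono_null (t := {x : ℕ → V | ∀ i, x i ≠ dd} ∪ ⋃ n, {x | x n = dd})
    · intro x _
      by_cases h : ∀ i, x i ≠ dd
      · exact Or.inl h
      · push Not at h
        exact Or.inr (mem_iUnion.2 h)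
    · exact measure_union_null (hK [] [] hnil hnil 0 0) (measure_iUnion_null hcon)
  obtain ⟨n, hn0, hnmin⟩ : ∃ n, μ {x | x n = dd} ≠ 0 ∧ ∀ i, i < n → μ {x | x i = dd} = 0 :=
    ⟨Nat.find hex, Nat.find_spec hex, fun i hi => not_not.1 (Nat.find_min hex hi)⟩
  set ρ := μ.restrict {x | x n = dd} with hρ
  have hle : ∀ C, μ C = 0 → ρ C = 0 := fun C hC =>
    le_antisymm ((Measure.restrict_apply_le _ _).trans hC.le) zero_le
  have hge : ∀ i, n ≤ i → ρ {x | x i ≠ dd} = 0 := by
    intro i hi
    induction i, hi using Nat.le_induction with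
    | base =>
      show ρ ({x : ℕ → V | x n = dd}ᶜ) = 0
      rw [hρ, Measure.restrict_apply (hmeas n).compl, compl_inter_self, measure_empty]
    | succ i hi ih =>
      apply measure_mono_null (t := {x : ℕ → V | x i ≠ dd} ∪ {x | x i = dd ∧ x (i + 1) ≠ dd})
      · intro x hx
        by_cases h : x i = dd
        · exact Or.inr ⟨h, hx⟩
        · exact Or.inl h
      · exact measure_union_null ih (hle _ (hK [] [] hnil hnil i 1))
  have hlt : ∀ i, i < n → ρ {x | x i = dd} = 0 := fun i hi => hle _ (hnmin i hi)
  have claim : ∀ m, m ≤ n → ∃ σ : List W, Good σ ∧ σ.length = m ∧ ρ (cyl σ) ≠ 0 := by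
    intro m
    induction m with
    | zero =>
      intro _
      refine ⟨[], trivial, rfl, ?_⟩
      have : cyl [] = univ := by ext x; simp [cyl]
      rw [this, hρ, Measure.restrict_apply MeasurableSet.univ, univ_inter]
      exact hn0
    | succ m ih =>
      intro hm
      obtain ⟨σ, hσ, hσl, hσ0⟩ := ih (by omega)
      have hev : Measurable fun x : ℕ → V => x m := measurable_pi_apply m
      set ν := Measure.map (fun x : ℕ → V => x m) (ρ.restrict (cyl σ)) with hν
      have hνapp : ∀ C : Set V, MeasurableSet C → ν C = ρ ({x | x m ∈ C} ∩ cyl σ) := by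
        intro C hC
        rw [hν, Measure.map_apply hev hC, Measure.restrict_apply (hev hC)]
        rfl
      have hν0 : ν ≠ 0 := by
        intro h
        apply hσ0
        have := hνapp univ MeasurableSet.univ
        rw [h] at this
        simpa using this.symm
      have hkill : ∀ C : Set V, IsGδ C → ρ (killSet σ C) = 0 → ν C = 0 := by
        intro C hC h0
        rw [hνapp C hC.measurableSet]
        apply measure_mono_null (t := killSet σ C ∪ {x | x m = dd})
        · rintro x ⟨h1, h2⟩
          by_cases h : x m = dd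
          · exact Or.inr h
          · left
            refine ⟨h2, ?_, ?_⟩
            · rw [hσl]; exact h1
            · rw [hσl]; exact h
        · exact measure_union_null h0 (hlt m (by omega))
      have hnull : Null (AA σ) ν := by
        refine ⟨?_, ?_, ?_, ?_, ?_⟩
        · intro k
          exact hkill _ (isGδ_NC k) (hle _ (hK σ [] hσ hnil k 2))
        · intro s hs k
          exact hkill _ (isGδ_compl_union _ _) (hle _ (hK (s :: σ) [] ⟨hs, hσ⟩ hnil k 3))
        · intro s hs t ht k
          exact hkill _ (isGδ_compl_union _ _)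
            (hle _ (hK (t :: s :: σ) [] ⟨ht, hs, hσ⟩ hnil k 4))
        · intro a ha k
          have hex2 : ∃ τ, Good (a :: τ) := by
            cases σ with
            | nil => exact absurd ha (notMem_empty a)
            | cons s σ' => exact ⟨σ', ha.1, hσ.2⟩
          obtain ⟨τ, hτ⟩ := hex2
          have h1 := hK σ (a :: τ) hσ hτ k 5
          have h2 : KK σ (a :: τ) k 5 = killSet σ (Lo (sh (-a) (-k)))ᶜ := by
            simp only [KK]
            rw [if_pos ha]
          rw [h2] at h1
          exact hkill _ (isGδ_compl_Lo _) (hle _ h1)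
        · intro s hs w hw hev2
          obtain ⟨k, hk⟩ := (enumEq_spec s w).1 hev2
          have h1 := hK (s :: σ) [] ⟨hs, hσ⟩ hnil k 6
          have h2 : KK (s :: σ) [] k 6 = killSet σ {code w} := by
            simp only [KK]
            rw [if_neg (by rw [hk]; exact hw), hk]
          rw [h2] at h1
          exact hkill _ isClosed_singleton.isGδ (hle _ h1)
      obtain ⟨s, hs, hs0⟩ := chain_lemma (AA σ) ν hν0 hnull
      refine ⟨s :: σ, ⟨hs, hσ⟩, by rw [List.length_cons, hσl], fun h0 => hs0 ?_⟩
      rw [hνapp _ (measurableSet_singleton _)]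
      apply measure_mono_null _ h0
      rintro x ⟨h1, h2⟩ i hi
      rw [List.length_cons] at hi
      by_cases him : i = σ.length
      · rw [him, pt_cons_length, hσl]
        exact h1
      · rw [pt_cons_of_ne s σ him]
        exact h2 i (by omega)
  obtain ⟨σ, hσ, hσl, hσ0⟩ := claim n le_rfl
  apply hσ0
  apply measure_mono_null (t := {pt σ} ∪ ⋃ i : {i // n ≤ i}, {x : ℕ → V | x i ≠ dd})
  · intro x hx
    by_cases h : ∀ i, n ≤ i → x i = dd
    · left
      rw [mem_singleton_iff]
      funext i
      by_cases hi : i < σ.length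
      · exact hx i hi
      · rw [pt_of_ge σ i (not_lt.1 hi)]
        exact h i (by omega)
    · push Not at h
      obtain ⟨i, hi, hi2⟩ := h
      exact Or.inr (mem_iUnion.2 ⟨⟨i, hi⟩, hi2⟩)
  · exact measure_union_null (hle _ (hZ σ hσ)) (measure_iUnion_null fun i => hge i.1 i.2)

end Pool.Agent.Work.MP_605a0d_an
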