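import Pool.Agent.Work.MP_605a0d_an.Order

/-!
# MP_605a0d_an : coding integer sequences in a Cantor space; the median lemma
-/

set_option autoImplicit false

namespace Pool.Agent.Work.MP_605a0d_an

open Filter MeasureTheory Set

/-- the Cantor space in which the integer sequences are coded -/
abbrev V := ℕ → ℤ → Bool

/-- the code of an integer sequence: the set below its graph -/
def code (w : W) : V := fun k j => decide (j < w k)

lemma code_injective : Function.Injective code := by
  intro w w' h
  funext k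
  have h1 : ∀ j, j < w k ↔ j < w' k := by
    intro j
    have := congrFun (congrFun h k) j
    simpa [code] using this
  have h2 := (h1 (w k)).not
  have h3 := (h1 (w' k)).not
  simp only [lt_irrefl, not_false_iff, true_iff, not_lt] at h2
  simp only [lt_irrefl, not_false_iff, iff_true, not_lt] at h3
  omega

/-- the dummy point -/
def dd : V := fun _ _ => false

lemma code_ne_dd (w : W) : code w ≠ dd := by
  intro h
  have := congrFun (congrFun h 0) (w 0 - 1)
  simp [code, dd] at this

/-- the `k`-th column of `y` is not a proper cut -/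
def NC (k : ℕ) : Set V := {y | ¬ ∃ m : ℤ, ∀ j, y k j = decide (j < m)}

/-- `y` is eventually below `w` -/
def Lo (w : W) : Set V := {y | ∀ᶠ k in atTop, ∀ j, w k ≤ j → y k j = false}

/-- `y` is eventually above `w` -/
def Up (w : W) : Set V := {y | ∀ᶠ k in atTop, ∀ j, j < w k → y k j = true}

def LoN (w : W) (n : ℕ) : Set V := {y | ∀ k, n ≤ k → ∀ j, w k ≤ j → y k j = false}

def UpN (w : W) (n : ℕ) : Set V := {y | ∀ k, n ≤ k → ∀ j, j < w k → y k j = true}

lemma Lo_eq (w : W) : Lo w = ⋃ n, LoN w n := by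
  ext y
  simp only [Lo, LoN, eventually_atTop, mem_iUnion, Set.mem_ofPred_eq]

lemma Up_eq (w : W) : Up w = ⋃ n, UpN w n := by
  ext y
  simp only [Up, UpN, eventually_atTop, mem_iUnion, Set.mem_ofPred_eq]

lemma LoN_mono (w : W) : Monotone (LoN w) := fun _ _ h _ hy k hk => hy k (h.trans hk)

lemma UpN_mono (w : W) : Monotone (UpN w) := fun _ _ h _ hy k hk => hy k (h.trans hk)

lemma isClosed_coord (k : ℕ) (j : ℤ) (b : Bool) : IsClosed {y : V | y k j = b} := by
  have : Continuous fun y : V => y k j := (continuous_apply j).comp (continuous_apply k)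
  exact isClosed_singleton.preimage this

lemma isOpen_coord (k : ℕ) (j : ℤ) (b : Bool) : IsOpen {y : V | y k j = b} := by
  have : Continuous fun y : V => y k j := (continuous_apply j).comp (continuous_apply k)
  exact (isOpen_discrete {b}).preimage this

lemma isClosed_LoN (w : W) (n : ℕ) : IsClosed (LoN w n) := by
  have : LoN w n = ⋂ k, ⋂ (_ : n ≤ k), ⋂ j, ⋂ (_ : w k ≤ j), {y : V | y k j = false} := by
    ext y; simp [LoN]
  rw [this]
  exact isClosed_iInter fun k => isClosed_iInter fun _ => isClosed_iInter fun j =>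
    isClosed_iInter fun _ => isClosed_coord k j false

lemma isClosed_UpN (w : W) (n : ℕ) : IsClosed (UpN w n) := by
  have : UpN w n = ⋂ k, ⋂ (_ : n ≤ k), ⋂ j, ⋂ (_ : j < w k), {y : V | y k j = true} := by
    ext y; simp [UpN]
  rw [this]
  exact isClosed_iInter fun k => isClosed_iInter fun _ => isClosed_iInter fun j =>
    isClosed_iInter fun _ => isClosed_coord k j true

lemma isGδ_compl_Lo (w : W) : IsGδ (Lo w)ᶜ := by
  rw [Lo_eq, compl_iUnion]
  exact IsGδ.iInter fun n => (isClosed_LoN w n).isOpen_compl.isGδ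

lemma isGδ_compl_Up (w : W) : IsGδ (Up w)ᶜ := by
  rw [Up_eq, compl_iUnion]
  exact IsGδ.iInter fun n => (isClosed_UpN w n).isOpen_compl.isGδ

lemma isGδ_NC (k : ℕ) : IsGδ (NC k) := by
  have : NC k = ⋂ m : ℤ, ({y : V | ∀ j, y k j = decide (j < m)})ᶜ := by
    ext y; simp [NC]
  rw [this]
  refine IsGδ.iInter fun m => ?_
  have h2 : {y : V | ∀ j, y k j = decide (j < m)} = ⋂ j, {y : V | y k j = decide (j < m)} := by
    ext y; simp
  rw [h2]
  exact (isClosed_iInter fun j => isClosed_coord k j _).isOpen_compl.isGδ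

lemma code_mem_Lo {f g : W} (h : Le f g) : code f ∈ Lo g := by
  show ∀ᶠ k in atTop, _
  filter_upwards [h] with k hk j hj
  simp only [code, decide_eq_false_iff_not, not_lt]
  omega

lemma code_mem_Up {f g : W} (h : Le g f) : code f ∈ Up g := by
  show ∀ᶠ k in atTop, _
  filter_upwards [h] with k hk j hj
  simp only [code, decide_eq_true_eq]
  omega

lemma code_notMem_NC (f : W) (k : ℕ) : code f ∉ NC k := by
  intro h
  exact h ⟨f k, fun j => rfl⟩

/-- a point all of whose columns are cuts is a code -/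
lemma exists_code {y : V} (h : ∀ k, y ∉ NC k) : ∃ w, code w = y := by
  have : ∀ k, ∃ m : ℤ, ∀ j, y k j = decide (j < m) := fun k => not_not.1 (h k)
  choose w hw using this
  exact ⟨w, by funext k j; exact (hw k j).symm⟩

lemma eventually_eq_of_mem {f g : W} (h1 : code f ∈ Lo g) (h2 : code f ∈ Up g) :
    ∀ᶠ k in atTop, f k = g k := by
  have h1' : ∀ᶠ k in atTop, ∀ j, g k ≤ j → code f k j = false := h1
  have h2' : ∀ᶠ k in atTop, ∀ j, j < g k → code f k j = true := h2
  filter_upwards [h1', h2'] with k hk1 hk2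
  have h3 := hk1 (g k) le_rfl
  simp only [code, decide_eq_false_iff_not, not_lt] at h3
  by_contra hne
  have h4 : f k < g k := lt_of_le_of_ne h3 hne
  have h5 := hk2 (f k) h4
  simp [code] at h5

/-- a countable increasing union of full measure contains a piece of more than half measure -/
lemma exists_half {Ω : Type*} [MeasurableSpace Ω] (ν : Measure Ω) [IsFiniteMeasure ν]
    (h0 : ν ≠ 0) (C : ℕ → Set Ω) (hm : Monotone C) (h : ν (⋃ n, C n)ᶜ = 0) :
    ∃ n, ν univ / 2 < ν (C n) := by
  have h1 : ν univ ≤ ν (⋃ n, C n) := by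
    calc ν univ ≤ ν (⋃ n, C n) + ν (⋃ n, C n)ᶜ := by
          rw [← union_compl_self (⋃ n, C n)]; exact measure_union_le _ _
      _ = ν (⋃ n, C n) := by rw [h, add_zero]
  rw [hm.measure_iUnion] at h1
  have h2 : ν univ / 2 < ⨆ n, ν (C n) :=
    lt_of_lt_of_le (ENNReal.half_lt_self (by simpa using h0) (measure_ne_top ν _)) h1
  exact lt_iSup_iff.1 h2

/-- **Median lemma.** -/
theorem median (ν : Measure V) [IsFiniteMeasure ν] (h0 : ν ≠ 0) (hN : ∀ k, ν (NC k) = 0)
    (A B : Set W) (hA : ∀ a ∈ A, ν (Up a)ᶜ = 0) (hB : ∀ b ∈ B, ν (Lo b)ᶜ = 0) :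
    ∃ e : W, (∀ a ∈ A, Le a e) ∧ (∀ b ∈ B, Le e b) := by
  classical
  -- the columns of the median
  let M : ℕ → ℤ → Prop := fun k j => ν univ / 2 < ν {y | y k j = true}
  -- a set of more than half measure on which the entry is true / false
  have hT : ∀ (C : Set V) (k : ℕ) (j : ℤ), ν univ / 2 < ν C → (∀ y ∈ C, y k j = true) → M k j :=
    fun C k j h1 h2 => lt_of_lt_of_le h1 (measure_mono h2)
  have hF : ∀ (C : Set V) (k : ℕ) (j : ℤ), ν univ / 2 < ν C → (∀ y ∈ C, y k j = false) →
      ¬ M k j := by
    intro C k j h1 h2 h3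
    have hms : MeasurableSet {y : V | y k j = true} := (isClosed_coord k j true).measurableSet
    have h4 : ν {y : V | y k j = true} + ν ({y : V | y k j = true})ᶜ = ν univ :=
      measure_add_measure_compl hms
    have h5 : ν C ≤ ν ({y : V | y k j = true})ᶜ := by
      apply measure_mono
      intro y hy h6
      have h7 : y k j = true := h6
      rw [h2 y hy] at h7
      exact absurd h7 (by decide)
    have h6 : ν univ / 2 + ν univ / 2 < ν univ := by
      calc ν univ / 2 + ν univ / 2 < ν {y : V | y k j = true} + ν ({y : V | y k j = true})ᶜ :=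
            ENNReal.add_lt_add h3 (lt_of_lt_of_le h1 h5)
        _ = ν univ := h4
    rw [ENNReal.add_halves] at h6
    exact lt_irrefl _ h6
  -- every column is eventually false to the right and true to the left
  have hright : ∀ k, ∃ m : ℤ, ¬ M k m := by
    intro k
    let C : ℕ → Set V := fun n => {y | ∀ j : ℤ, (n : ℤ) ≤ j → y k j = false}
    have hm : Monotone C := by
      intro a b hab y hy j hj
      exact hy j (le_trans (by exact_mod_cast hab) hj)
    have hU : ν (⋃ n, C n)ᶜ = 0 := by
      apply measure_mono_null _ (hN k)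
      intro y hy h1
      obtain ⟨m, hm⟩ := h1
      apply hy
      rw [mem_iUnion]
      refine ⟨m.toNat, fun j hj => ?_⟩
      rw [hm j, decide_eq_false_iff_not, not_lt]
      have := Int.self_le_toNat m
      omega
    obtain ⟨n, hn⟩ := exists_half ν h0 C hm hU
    exact ⟨n, hF (C n) k n hn fun y hy => hy n le_rfl⟩
  have hleft : ∀ k, ∃ m : ℤ, ∀ j, j < m → M k j := by
    intro k
    let C : ℕ → Set V := fun n => {y | ∀ j : ℤ, j < -(n : ℤ) → y k j = true}
    have hm : Monotone C := by
      intro a b hab y hy j hj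
      apply hy j
      have : (a : ℤ) ≤ b := by exact_mod_cast hab
      omega
    have hU : ν (⋃ n, C n)ᶜ = 0 := by
      apply measure_mono_null _ (hN k)
      intro y hy h1
      obtain ⟨m, hm⟩ := h1
      apply hy
      rw [mem_iUnion]
      refine ⟨(-m).toNat, fun j hj => ?_⟩
      rw [hm j, decide_eq_true_eq]
      have := Int.self_le_toNat (-m)
      omega
    obtain ⟨n, hn⟩ := exists_half ν h0 C hm hU
    exact ⟨-n, fun j hj => hT (C n) k j hn fun y hy => hy j hj⟩
  have hex : ∀ k, ∃ e : ℤ, ¬ M k e ∧ ∀ j, ¬ M k j → e ≤ j := by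
    intro k
    obtain ⟨m, hm⟩ := hleft k
    obtain ⟨e, he, hmin⟩ := Int.exists_least_of_bdd (P := fun j => ¬ M k j)
      ⟨m, fun z hz => by
        by_contra hcon
        exact hz (hm z (by omega))⟩ (hright k)
    exact ⟨e, he, hmin⟩
  choose e he hmin using hex
  refine ⟨e, fun a ha => ?_, fun b hb => ?_⟩
  · have h1 := hA a ha
    rw [Up_eq] at h1
    obtain ⟨n, hn⟩ := exists_half ν h0 (UpN a) (UpN_mono a) h1
    refine eventually_atTop.2 ⟨n, fun k hk => ?_⟩
    by_contra hcon
    exact he k (hT _ k (e k) hn fun y hy => hy k hk (e k) (by omega))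
  · have h1 := hB b hb
    rw [Lo_eq] at h1
    obtain ⟨n, hn⟩ := exists_half ν h0 (LoN b) (LoN_mono b) h1
    refine eventually_atTop.2 ⟨n, fun k hk => ?_⟩
    exact hmin k (b k) (hF _ k (b k) hn fun y hy => hy k hk (b k) le_rfl)

end Pool.Agent.Work.MP_605a0d_an
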