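import Mathlib

/-!
# MP_605a0d_an : greedy well-ordered chains of integer sequences

`W = ℕ → ℤ` with the strict order `Lt f g`: `g - f → ∞`, and the quasi-order `Le f g`: `f ≤ g`
eventually. For a set `A` of sequences, `S A` is a well-ordered `Lt`-chain inside
`U A = {w | ∀ a ∈ A, Lt w (-a)}` without a strict upper bound inside `U A`.
-/

set_option autoImplicit false

namespace Pool.Agent.Work.MP_605a0d_an

open Filter

/-- integer sequences -/
abbrev W := ℕ → ℤ

/-- `g - f → ∞` -/
def Lt (f g : W) : Prop := ∀ n : ℕ, ∀ᶠ k in atTop, f k + n ≤ g k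

/-- `f ≤ g` eventually -/
def Le (f g : W) : Prop := ∀ᶠ k in atTop, f k ≤ g k

/-- the sequence `f` shifted by the constant `n` -/
def sh (f : W) (n : ℤ) : W := fun k => f k + n

lemma Lt.irrefl (f : W) : ¬ Lt f f := by
  intro h
  obtain ⟨k, hk⟩ := (h 1).exists
  push_cast at hk
  omega

lemma Lt.trans {f g h : W} (h1 : Lt f g) (h2 : Lt g h) : Lt f h := by
  intro n
  filter_upwards [h1 n, h2 0] with k hk hk'
  push_cast at hk'
  omega

lemma Lt.trans_le {f g h : W} (h1 : Lt f g) (h2 : Le g h) : Lt f h := by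
  intro n
  filter_upwards [h1 n, h2] with k hk hk'
  omega

lemma Le.trans_lt {f g h : W} (h1 : Le f g) (h2 : Lt g h) : Lt f h := by
  intro n
  filter_upwards [h1, h2 n] with k hk hk'
  omega

lemma Lt.le {f g : W} (h : Lt f g) : Le f g := by
  filter_upwards [h 0] with k hk
  push_cast at hk
  omega

lemma Le.refl (f : W) : Le f f := Eventually.of_forall fun _ => le_rfl

lemma lt_of_forall_sh_le {f g : W} (h : ∀ n : ℕ, Le (sh f n) g) : Lt f g := by
  intro n
  filter_upwards [h n] with k hk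
  exact hk

lemma lt_of_forall_le_sh {f g : W} (h : ∀ n : ℕ, Le f (sh g (-n))) : Lt f g := by
  intro n
  filter_upwards [h n] with k hk
  simp only [sh] at hk
  omega

lemma Lt.sh_le {f g : W} (h : Lt f g) (n : ℕ) : Le (sh f n) g := by
  filter_upwards [h n] with k hk
  exact hk

lemma Lt.le_sh {f g : W} (h : Lt f g) (n : ℕ) : Le f (sh g (-n)) := by
  filter_upwards [h n] with k hk
  simp only [sh]
  omega

lemma Lt.neg {f g : W} (h : Lt f g) : Lt (-g) (-f) := by
  intro n
  filter_upwards [h n] with k hk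
  simp only [Pi.neg_apply]
  omega

lemma Le.neg {f g : W} (h : Le f g) : Le (-g) (-f) := by
  filter_upwards [h] with k hk
  simp only [Pi.neg_apply]
  omega

/-- greedy chains along a well-order -/
theorem exists_greedy {α : Type*} (r : α → α → Prop) (hirr : ∀ a, ¬ r a a) (U : Set α) :
    ∃ S ⊆ U, (∀ S' ⊆ S, S'.Nonempty → ∃ s ∈ S', ∀ t ∈ S', t = s ∨ r s t) ∧
      ∀ e ∈ U, ∃ s ∈ S, ¬ r s e := by
  let wo : α → α → Prop := WellOrderingRel
  have hwf : WellFounded wo := WellOrderingRel.isWellOrder.wf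
  let P : α → Prop := hwf.fix (fun u IH => u ∈ U ∧ ∀ v, ∀ h : wo v u, IH v h → r v u)
  have hP : ∀ u, P u ↔ (u ∈ U ∧ ∀ v, wo v u → P v → r v u) := by
    intro u
    have := hwf.fix_eq (fun u (IH : ∀ v, wo v u → Prop) => u ∈ U ∧ ∀ v, ∀ h : wo v u, IH v h → r v u) u
    exact iff_of_eq this
  refine ⟨{u | P u}, fun u hu => ((hP u).1 hu).1, ?_, ?_⟩
  · intro S' hS' hne
    obtain ⟨s, hs, hmin⟩ := hwf.has_min S' hne
    refine ⟨s, hs, fun t ht => ?_⟩
    by_cases hts : t = s
    · exact Or.inl hts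
    · right
      have htri := (inferInstance : Std.Trichotomous wo).trichotomous
      have h1 : wo s t := by
        by_contra hcon
        exact hts ((htri s t hcon (hmin t ht)).symm)
      exact ((hP t).1 (hS' ht)).2 s h1 (hS' hs)
  · intro e he
    by_contra hcon
    push Not at hcon
    have : P e := (hP e).2 ⟨he, fun v _ hv => hcon v hv⟩
    exact hirr e (hcon e this)

/-- the sequences far below all `-a`, `a ∈ A` -/
def U (A : Set W) : Set W := {w | ∀ a ∈ A, Lt w (-a)}

/-- a greedy well-ordered chain in `U A` -/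
noncomputable def S (A : Set W) : Set W := (exists_greedy Lt Lt.irrefl (U A)).choose

lemma S_subset (A : Set W) : S A ⊆ U A := (exists_greedy Lt Lt.irrefl (U A)).choose_spec.1

lemma S_min (A : Set W) (S' : Set W) (h : S' ⊆ S A) (hne : S'.Nonempty) :
    ∃ s ∈ S', ∀ t ∈ S', t = s ∨ Lt s t :=
  (exists_greedy Lt Lt.irrefl (U A)).choose_spec.2.1 S' h hne

lemma S_unbounded (A : Set W) (e : W) (he : e ∈ U A) : ∃ s ∈ S A, ¬ Lt s e :=
  (exists_greedy Lt Lt.irrefl (U A)).choose_spec.2.2 e he

lemma S_chain (A : Set W) {s t : W} (hs : s ∈ S A) (ht : t ∈ S A) : s = t ∨ Lt s t ∨ Lt t s := by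
  obtain ⟨m, hm, hmin⟩ := S_min A {s, t} (by
    intro x hx
    rcases hx with rfl | rfl
    · exact hs
    · exact ht) ⟨s, by simp⟩
  rcases hm with rfl | rfl
  · rcases hmin t (by simp) with h | h
    · exact Or.inl h.symm
    · exact Or.inr (Or.inl h)
  · rcases hmin s (by simp) with h | h
    · exact Or.inl h
    · exact Or.inr (Or.inr h)

/-- the initial segment of `S A` below `s` -/
def below (A : Set W) (s : W) : Set W := {a | a ∈ S A ∧ Lt a s}

/-- `S ∅` is unbounded for eventual domination -/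
lemma S_empty_unbounded (g : W) : ∃ s ∈ S ∅, ∃ᶠ k in atTop, g k < s k := by
  obtain ⟨s, hs, hns⟩ := S_unbounded ∅ (fun k => g k + k) (by
    intro a ha
    exact absurd ha (Set.notMem_empty a))
  refine ⟨s, hs, ?_⟩
  by_contra hcon
  rw [not_frequently] at hcon
  apply hns
  intro n
  filter_upwards [hcon, eventually_ge_atTop n] with k hk hk'
  have : (n : ℤ) ≤ k := by exact_mod_cast hk'
  omega

end Pool.Agent.Work.MP_605a0d_an
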