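import Pool.Agent.Work.MP_605a0d_an.Core

/-!
# MP_605a0d_an : the binary tree, indexed by `ℕ` (heap order)

The children of `n` are `2n+1` and `2n+2`. For `r : ℕ → Bool`, `node r ℓ` is the node of level `ℓ`
on the branch `r`, and `Cyl n` is the set of branches through `n`.
-/

set_option autoImplicit false

namespace Pool.Agent.Work.MP_605a0d_an

open Filter MeasureTheory Set

/-- the nodes of a branch -/
def node (r : K) : ℕ → ℕ
  | 0 => 0
  | ℓ + 1 => 2 * node r ℓ + (if r ℓ then 2 else 1)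

lemma node_succ (r : K) (ℓ : ℕ) : node r (ℓ + 1) = 2 * node r ℓ + (if r ℓ then 2 else 1) := rfl

lemma node_lt_succ (r : K) (ℓ : ℕ) : node r ℓ < node r (ℓ + 1) := by
  rw [node_succ]; split_ifs <;> omega

lemma node_strictMono (r : K) : StrictMono (node r) := strictMono_nat_of_lt_succ (node_lt_succ r)

lemma le_node (r : K) (ℓ : ℕ) : ℓ ≤ node r ℓ := (node_strictMono r).id_le ℓ

lemma node_bounds (r : K) (ℓ : ℕ) : 2 ^ ℓ ≤ node r ℓ + 1 ∧ node r ℓ + 1 < 2 ^ (ℓ + 1) := by
  induction ℓ with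
  | zero => simp [node]
  | succ ℓ ih =>
    rw [node_succ]
    have h1 : 2 ^ (ℓ + 1) = 2 * 2 ^ ℓ := by ring
    have h2 : 2 ^ (ℓ + 1 + 1) = 2 * 2 ^ (ℓ + 1) := by ring
    split_ifs <;> omega

/-- the level of a node -/
def lv (n : ℕ) : ℕ := Nat.log 2 (n + 1)

lemma lv_node (r : K) (ℓ : ℕ) : lv (node r ℓ) = ℓ := by
  unfold lv
  rw [Nat.log_eq_iff (Or.inr ⟨by norm_num, by omega⟩)]
  exact node_bounds r ℓ

lemma lt_of_lv (n : ℕ) : n + 1 < 2 ^ (lv n + 1) := Nat.lt_pow_succ_log_self (by norm_num) _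

lemma le_of_lv (n : ℕ) : 2 ^ lv n ≤ n + 1 := Nat.pow_log_le_self 2 (by omega)

lemma lv_le (n : ℕ) : lv n ≤ n := by
  have h1 := le_of_lv n
  have h2 : lv n < 2 ^ lv n := Nat.lt_two_pow_self
  omega

/-- the branches through a node -/
def Cyl (n : ℕ) : Set K := {r | ∃ ℓ, node r ℓ = n}

lemma mem_Cyl {r : K} {n : ℕ} : r ∈ Cyl n ↔ node r (lv n) = n := by
  constructor
  · rintro ⟨ℓ, rfl⟩; rw [lv_node]
  · intro h; exact ⟨_, h⟩

lemma mem_Cyl_node (r : K) (ℓ : ℕ) : r ∈ Cyl (node r ℓ) := ⟨ℓ, rfl⟩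

lemma Cyl_zero : Cyl 0 = univ := by
  ext r; simp only [mem_univ, iff_true]; exact ⟨0, rfl⟩

lemma mem_Cyl_child (r : K) (n : ℕ) : r ∈ Cyl n ↔ r ∈ Cyl (2 * n + 1) ∨ r ∈ Cyl (2 * n + 2) := by
  constructor
  · rintro ⟨ℓ, rfl⟩
    by_cases h : r ℓ
    · right; exact ⟨ℓ + 1, by rw [node_succ, if_pos h]⟩
    · left; exact ⟨ℓ + 1, by rw [node_succ, if_neg h]⟩
  · rintro (⟨ℓ, h⟩ | ⟨ℓ, h⟩)
    · cases ℓ with
      | zero => simp [node] at h
      | succ ℓ =>
        rw [node_succ] at h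
        refine ⟨ℓ, ?_⟩
        split_ifs at h <;> omega
    · cases ℓ with
      | zero => simp [node] at h
      | succ ℓ =>
        rw [node_succ] at h
        refine ⟨ℓ, ?_⟩
        split_ifs at h <;> omega

lemma Cyl_child_disjoint (n : ℕ) : Disjoint (Cyl (2 * n + 1)) (Cyl (2 * n + 2)) := by
  rw [Set.disjoint_left]
  rintro r ⟨ℓ, h⟩ ⟨ℓ', h'⟩
  have h1 : lv (2 * n + 1) = ℓ := by rw [← h, lv_node]
  have h2 : lv (2 * n + 2) = ℓ' := by rw [← h', lv_node]
  rcases lt_trichotomy ℓ ℓ' with h3 | h3 | h3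
  · have h4 := node_strictMono r h3
    rw [h, h'] at h4
    have h5 : ℓ + 1 ≤ ℓ' := h3
    have h6 := (node_strictMono r).monotone h5
    rw [node_succ] at h6
    split_ifs at h6 <;> omega
  · rw [h3, h'] at h; omega
  · have h4 := node_strictMono r h3
    rw [h, h'] at h4
    omega

lemma Cyl_eq_union (n : ℕ) : Cyl n = Cyl (2 * n + 1) ∪ Cyl (2 * n + 2) := by
  ext r; exact mem_Cyl_child r n

/-- `node r ℓ` determines the coordinates of `r` below `ℓ` -/
lemma node_eq_iff (r r' : K) (ℓ : ℕ) : node r ℓ = node r' ℓ ↔ ∀ i, i < ℓ → r i = r' i := by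
  induction ℓ with
  | zero => simp [node]
  | succ ℓ ih =>
    rw [node_succ, node_succ]
    constructor
    · intro h i hi
      have h1 : node r ℓ = node r' ℓ := by split_ifs at h <;> omega
      by_cases hi' : i < ℓ
      · exact (ih.1 h1) i hi'
      · have hi2 : i = ℓ := by omega
        subst hi2
        cases hr : r i <;> cases hr' : r' i
        · rfl
        · simp [hr, hr'] at h; omega
        · simp [hr, hr'] at h; omega
        · rfl
    · intro h
      rw [ih.2 fun i hi => h i (by omega), h ℓ (by omega)]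

lemma node_eq_of_le {r r' : K} {ℓ i : ℕ} (h : node r ℓ = node r' ℓ) (hi : i ≤ ℓ) :
    node r i = node r' i :=
  (node_eq_iff r r' i).2 fun j hj => (node_eq_iff r r' ℓ).1 h j (by omega)

/-- nested or disjoint -/
lemma Cyl_subset {r : K} {n m : ℕ} (hn : r ∈ Cyl n) (hm : r ∈ Cyl m) (h : lv n ≤ lv m) :
    Cyl m ⊆ Cyl n := by
  intro r' hr'
  rw [mem_Cyl] at *
  have h2 := node_eq_of_le (hr'.trans hm.symm) h
  rw [hn] at h2
  exact h2

lemma Cyl_nonempty (n : ℕ) : (Cyl n).Nonempty := by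
  induction n using Nat.strong_induction_on with
  | _ n ih =>
    rcases Nat.eq_zero_or_pos n with rfl | hn
    · exact ⟨fun _ => false, 0, rfl⟩
    · obtain ⟨r, ℓ, hr⟩ := ih ((n - 1) / 2) (by omega)
      let r' : K := Function.update r ℓ (decide (n % 2 = 0))
      refine ⟨r', ℓ + 1, ?_⟩
      have h1 : node r' ℓ = node r ℓ := (node_eq_iff r' r ℓ).2 fun i hi => by
        show Function.update r ℓ _ i = r i
        rw [Function.update_of_ne (by omega)]
      have h2 : r' ℓ = decide (n % 2 = 0) := by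
        show Function.update r ℓ _ ℓ = _
        rw [Function.update_self]
      rw [node_succ, h1, hr, h2]
      by_cases h3 : n % 2 = 0
      · simp [h3]; omega
      · simp [h3]; omega

lemma isClopen_Cyl (n : ℕ) : IsClopen (Cyl n) := by
  obtain ⟨r, ℓ, hr⟩ := Cyl_nonempty n
  have h1 : Cyl n = ⋂ i : Fin ℓ, {r' : K | r' i = r i} := by
    ext r'
    simp only [mem_iInter, Set.mem_ofPred_eq]
    constructor
    · intro h i
      rw [mem_Cyl] at h
      have hl : lv n = ℓ := by rw [← hr, lv_node]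
      rw [hl, ← hr] at h
      exact (node_eq_iff r' r ℓ).1 h i i.2
    · intro h
      exact ⟨ℓ, by rw [← hr]; exact (node_eq_iff r' r ℓ).2 fun i hi => h ⟨i, hi⟩⟩
  rw [h1]
  refine isClopen_iInter_of_finite fun i => ?_
  have : {r' : K | r' i = r i} = (fun r' : K => r' i) ⁻¹' {r i} := rfl
  rw [this]
  exact (isClopen_discrete _).preimage (continuous_apply (i : ℕ))

lemma measurableSet_Cyl (n : ℕ) : MeasurableSet (Cyl n) := (isClopen_Cyl n).1.measurableSet

/-- open sets are unions of cylinders -/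
lemma exists_Cyl_of_mem {O : Set K} (hO : IsOpen O) {r : K} (hr : r ∈ O) :
    ∃ ℓ, Cyl (node r ℓ) ⊆ O := by
  rw [isOpen_pi_iff] at hO
  obtain ⟨I, u, h1, h2⟩ := hO r hr
  refine ⟨I.sup id + 1, fun r' hr' => h2 ?_⟩
  intro i hi
  rw [mem_Cyl, lv_node] at hr'
  have h3 := (node_eq_iff r' r _).1 hr' i (by
    have : i ≤ I.sup id := Finset.le_sup (f := id) hi
    omega)
  rw [h3]
  exact (h1 i hi).2

lemma iInter_Cyl_node (r : K) : ⋂ ℓ, Cyl (node r ℓ) = {r} := by
  ext r'
  simp only [mem_iInter, mem_singleton_iff]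
  constructor
  · intro h
    funext i
    have h1 := h (i + 1)
    rw [mem_Cyl, lv_node] at h1
    exact (node_eq_iff r' r _).1 h1 i (by omega)
  · rintro rfl ℓ
    exact mem_Cyl_node _ ℓ

lemma antitone_Cyl_node (r : K) : Antitone fun ℓ => Cyl (node r ℓ) := by
  intro i j hij
  exact Cyl_subset (mem_Cyl_node r i) (mem_Cyl_node r j) (by rw [lv_node, lv_node]; exact hij)

/-- finite measures are determined by the cylinders -/
theorem ext_Cyl (μ ν : Measure K) [IsFiniteMeasure μ] (h : ∀ n, μ (Cyl n) = ν (Cyl n)) :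
    μ = ν := by
  refine ext_of_generate_finite ({∅} ∪ range Cyl) ?_ ?_ ?_ ?_
  · apply le_antisymm
    · rw [MeasurableSpace.pi_eq_generateFrom_projections]
      apply MeasurableSpace.generateFrom_le
      rintro _ ⟨ℓ, t, -, rfl⟩
      have h1 : (Function.eval ℓ ⁻¹' t : Set K) =
          ⋃ n : {n : ℕ // Cyl n ⊆ Function.eval ℓ ⁻¹' t}, Cyl n.1 := by
        ext r
        simp only [mem_iUnion]
        constructor
        · intro hr
          refine ⟨⟨node r (ℓ + 1), ?_⟩, mem_Cyl_node r _⟩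
          intro r' hr'
          rw [mem_Cyl, lv_node] at hr'
          have := (node_eq_iff r' r _).1 hr' ℓ (by omega)
          show r' ℓ ∈ t
          rw [this]
          exact hr
        · rintro ⟨n, hn⟩
          exact n.2 hn
      rw [h1]
      refine MeasurableSet.iUnion fun n => ?_
      exact MeasurableSpace.measurableSet_generateFrom (Or.inr ⟨n.1, rfl⟩)
    · apply MeasurableSpace.generateFrom_le
      rintro _ (rfl | ⟨n, rfl⟩)
      · exact MeasurableSet.empty
      · exact measurableSet_Cyl n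
  · rintro s hs t ht hst
    rcases hs with rfl | ⟨n, rfl⟩
    · simp at hst
    rcases ht with rfl | ⟨m, rfl⟩
    · simp at hst
    obtain ⟨r, hr1, hr2⟩ := hst
    rcases le_total (lv n) (lv m) with h1 | h1
    · right
      exact ⟨m, (inter_eq_self_of_subset_right (Cyl_subset hr1 hr2 h1)).symm⟩
    · right
      exact ⟨n, (inter_eq_self_of_subset_left (Cyl_subset hr2 hr1 h1)).symm⟩
  · rintro s (rfl | ⟨n, rfl⟩)
    · simp
    · exact h n
  · have := h 0
    rwa [Cyl_zero] at this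

end Pool.Agent.Work.MP_605a0d_an
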