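import Pool.Agent.Work.MP_605a0d_an.Tree

/-!
# MP_605a0d_an : measures on the Cantor space from additive functions on the tree
-/

set_option autoImplicit false

namespace Pool.Agent.Work.MP_605a0d_an

open Filter MeasureTheory Set

/-- left endpoints of the intervals of the nodes -/
noncomputable def LL (p : ℕ → ℝ) : ℕ → ℝ
  | 0 => 0
  | n + 1 => if n % 2 = 0 then LL p (n / 2) else LL p (n / 2) + p n
termination_by n => n
decreasing_by all_goals omega

lemma LL_zero (p : ℕ → ℝ) : LL p 0 = 0 := by rw [LL]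

lemma LL_left (p : ℕ → ℝ) (m : ℕ) : LL p (2 * m + 1) = LL p m := by
  rw [LL, if_pos (by omega)]
  congr 1
  omega

lemma LL_right (p : ℕ → ℝ) (m : ℕ) : LL p (2 * m + 2) = LL p m + p (2 * m + 1) := by
  rw [show 2 * m + 2 = (2 * m + 1) + 1 by rfl, LL, if_neg (by omega)]
  congr 2
  omega

/-- the node of level `ℓ` whose interval contains `t` -/
noncomputable def nd (p : ℕ → ℝ) (t : ℝ) : ℕ → ℕ
  | 0 => 0
  | ℓ + 1 => 2 * nd p t ℓ + (if LL p (2 * nd p t ℓ + 2) ≤ t then 2 else 1)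

/-- the branch of `t` -/
noncomputable def phi (p : ℕ → ℝ) (t : ℝ) : K := fun ℓ => decide (LL p (2 * nd p t ℓ + 2) ≤ t)

lemma node_phi (p : ℕ → ℝ) (t : ℝ) (ℓ : ℕ) : node (phi p t) ℓ = nd p t ℓ := by
  induction ℓ with
  | zero => rfl
  | succ ℓ ih =>
    rw [node_succ, ih, nd]
    simp [phi]

lemma measurable_nd (p : ℕ → ℝ) (ℓ : ℕ) : Measurable fun t => nd p t ℓ := by
  induction ℓ with
  | zero => exact measurable_const
  | succ ℓ ih =>
    have h1 : Measurable fun t => LL p (2 * nd p t ℓ + 2) :=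
      (measurable_from_nat (f := fun n => LL p (2 * n + 2))).comp ih
    have h2 : MeasurableSet {t : ℝ | LL p (2 * nd p t ℓ + 2) ≤ t} :=
      measurableSet_le h1 measurable_id
    have h3 : Measurable fun t : ℝ => (if LL p (2 * nd p t ℓ + 2) ≤ t then 2 else 1 : ℕ) :=
      Measurable.ite h2 measurable_const measurable_const
    exact (ih.const_mul 2).add h3

lemma measurable_phi (p : ℕ → ℝ) : Measurable (phi p) := by
  refine measurable_pi_lambda _ fun ℓ => ?_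
  have h1 : Measurable fun t => LL p (2 * nd p t ℓ + 2) :=
    (measurable_from_nat (f := fun n => LL p (2 * n + 2))).comp (measurable_nd p ℓ)
  have h2 : MeasurableSet {t : ℝ | LL p (2 * nd p t ℓ + 2) ≤ t} :=
    measurableSet_le h1 measurable_id
  exact measurable_to_bool (by
    have : (fun t => phi p t ℓ) ⁻¹' {true} = {t : ℝ | LL p (2 * nd p t ℓ + 2) ≤ t} := by
      ext t; simp [phi]
    rw [this]
    exact h2)

lemma LL_node (p : ℕ → ℝ) (h0 : ∀ n, 0 ≤ p n) (hp : ∀ n, p n = p (2 * n + 1) + p (2 * n + 2))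
    (t : ℝ) (r : K) (ℓ : ℕ) :
    (0 ≤ t ∧ t < p 0 ∧ nd p t ℓ = node r ℓ) ↔
      (LL p (node r ℓ) ≤ t ∧ t < LL p (node r ℓ) + p (node r ℓ)) := by
  induction ℓ with
  | zero => simp [node, nd, LL_zero]
  | succ ℓ ih =>
    set m := node r ℓ with hm
    have hL : LL p (2 * m + 2) = LL p m + p (2 * m + 1) := LL_right p m
    have hl : LL p (2 * m + 1) = LL p m := LL_left p m
    have hpm := hp m
    have h01 := h0 (2 * m + 1)
    have h02 := h0 (2 * m + 2)
    rw [node_succ, ← hm, nd]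
    by_cases hr : r ℓ
    · rw [if_pos hr]
      constructor
      · rintro ⟨h1, h2, h3⟩
        have h4 : nd p t ℓ = m ∧ LL p (2 * nd p t ℓ + 2) ≤ t := by
          split_ifs at h3 with h5
          · exact ⟨by omega, h5⟩
          · omega
        have h5 := ih.1 ⟨h1, h2, h4.1⟩
        rw [h4.1] at h4
        refine ⟨h4.2, ?_⟩
        rw [hL]
        linarith [h5.2]
      · rintro ⟨h1, h2⟩
        rw [hL] at h1 h2
        have h3 := ih.2 ⟨by linarith, by linarith⟩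
        refine ⟨h3.1, h3.2.1, ?_⟩
        rw [h3.2.2, if_pos (by rw [hL]; exact h1)]
    · rw [if_neg hr]
      constructor
      · rintro ⟨h1, h2, h3⟩
        have h4 : nd p t ℓ = m ∧ ¬ LL p (2 * nd p t ℓ + 2) ≤ t := by
          split_ifs at h3 with h5
          · omega
          · exact ⟨by omega, h5⟩
        have h5 := ih.1 ⟨h1, h2, h4.1⟩
        rw [h4.1, hL] at h4
        rw [hl]
        refine ⟨h5.1, ?_⟩
        linarith [not_le.1 h4.2]
      · rintro ⟨h1, h2⟩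
        rw [hl] at h1 h2
        have h3 := ih.2 ⟨by linarith, by linarith⟩
        refine ⟨h3.1, h3.2.1, ?_⟩
        rw [h3.2.2, if_neg (by rw [hL]; linarith)]

/-- an additive nonnegative function on the tree comes from a finite measure -/
theorem exists_measure (p : ℕ → ℝ) (h0 : ∀ n, 0 ≤ p n)
    (hp : ∀ n, p n = p (2 * n + 1) + p (2 * n + 2)) :
    ∃ μ : Measure K, IsFiniteMeasure μ ∧ ∀ n, μ.real (Cyl n) = p n := by
  have key : ∀ n, Measure.map (phi p) (volume.restrict (Ico 0 (p 0))) (Cyl n) =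
      ENNReal.ofReal (p n) := by
    intro n
    obtain ⟨r, ℓ, hr⟩ := Cyl_nonempty n
    rw [Measure.map_apply (measurable_phi p) (measurableSet_Cyl n),
      Measure.restrict_apply (measurable_phi p (measurableSet_Cyl n))]
    have h1 : phi p ⁻¹' Cyl n ∩ Ico 0 (p 0) = Ico (LL p n) (LL p n + p n) := by
      ext t
      have h2 := LL_node p h0 hp t r ℓ
      rw [hr] at h2
      have hl : lv n = ℓ := by rw [← hr, lv_node]
      have h3 : phi p t ∈ Cyl n ↔ nd p t ℓ = n := by rw [mem_Cyl, hl, node_phi]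
      rw [mem_inter_iff, mem_preimage, h3, mem_Ico, mem_Ico, ← h2]
      tauto
    rw [h1, Real.volume_Ico]
    congr 1
    ring
  refine ⟨Measure.map (phi p) (volume.restrict (Ico 0 (p 0))), ?_, fun n => ?_⟩
  · refine ⟨?_⟩
    have := key 0
    rw [Cyl_zero] at this
    rw [this]
    exact ENNReal.ofReal_lt_top
  · rw [Measure.real, key n, ENNReal.toReal_ofReal (h0 n)]

/-- the levels of the tree -/
def Lv (ℓ : ℕ) : Finset ℕ := Finset.Ico (2 ^ ℓ - 1) (2 ^ (ℓ + 1) - 1)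

lemma node_mem_Lv (r : K) (ℓ : ℕ) : node r ℓ ∈ Lv ℓ := by
  have := node_bounds r ℓ
  rw [Lv, Finset.mem_Ico]
  omega

lemma mem_Lv {n ℓ : ℕ} : n ∈ Lv ℓ ↔ lv n = ℓ := by
  constructor
  · intro h
    rw [Lv, Finset.mem_Ico] at h
    unfold lv
    have : 0 < 2 ^ ℓ := by positivity
    rw [Nat.log_eq_iff (Or.inr ⟨by norm_num, by omega⟩)]
    omega
  · rintro rfl
    have h1 := lt_of_lv n
    have h2 := le_of_lv n
    rw [Lv, Finset.mem_Ico]
    omega

lemma sum_Ico_double {M : Type*} [AddCommMonoid M] (g : ℕ → M) (a b : ℕ) (h : a ≤ b) :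
    ∑ n ∈ Finset.Ico (2 * a + 1) (2 * b + 1), g n =
      ∑ n ∈ Finset.Ico a b, (g (2 * n + 1) + g (2 * n + 2)) := by
  induction b, h using Nat.le_induction with
  | base => simp
  | succ b hb ih =>
    rw [Finset.sum_Ico_succ_top hb, ← ih, show 2 * (b + 1) + 1 = 2 * b + 1 + 1 + 1 by ring,
      Finset.sum_Ico_succ_top (by omega), Finset.sum_Ico_succ_top (by omega), add_assoc]

lemma sum_Lv_succ {M : Type*} [AddCommMonoid M] (g : ℕ → M) (ℓ : ℕ) :
    ∑ n ∈ Lv (ℓ + 1), g n = ∑ n ∈ Lv ℓ, (g (2 * n + 1) + g (2 * n + 2)) := by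
  have h1 : 0 < 2 ^ ℓ := by positivity
  have h2 : 2 ^ (ℓ + 1) = 2 * 2 ^ ℓ := by ring
  have h3 : 2 ^ (ℓ + 1 + 1) = 4 * 2 ^ ℓ := by ring
  have := sum_Ico_double g (2 ^ ℓ - 1) (2 ^ (ℓ + 1) - 1) (by omega)
  rw [Lv, Lv, ← this]
  congr 2
  · omega
  · omega

/-- the measure of a union of cylinders of one level -/
lemma measure_level (μ : Measure K) [IsFiniteMeasure μ] (ℓ : ℕ) (B : Set ℕ)
    [DecidablePred (· ∈ B)] :
    μ.real {r | node r ℓ ∈ B} = ∑ n ∈ Lv ℓ, if n ∈ B then μ.real (Cyl n) else 0 := by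
  have h1 : {r : K | node r ℓ ∈ B} = ⋃ n ∈ (Lv ℓ).filter (· ∈ B), Cyl n := by
    ext r
    simp only [mem_iUnion, Set.mem_ofPred_eq, Finset.mem_filter]
    constructor
    · intro h
      exact ⟨node r ℓ, ⟨node_mem_Lv r ℓ, h⟩, mem_Cyl_node r ℓ⟩
    · rintro ⟨n, ⟨h1, h2⟩, h3⟩
      rw [mem_Lv] at h1
      rw [mem_Cyl, h1] at h3
      rwa [h3]
  rw [h1, measureReal_biUnion_finset]
  · rw [Finset.sum_filter]
  · intro n hn m hm hnm
    rw [Function.onFun, Set.disjoint_left]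
    intro r hr hr'
    rw [Finset.coe_filter, Set.mem_ofPred_eq, mem_Lv] at hn hm
    rw [mem_Cyl, hn.1] at hr
    rw [mem_Cyl, hm.1] at hr'
    exact hnm (hr.symm.trans hr')
  · intro n _
    exact measurableSet_Cyl n

/-- signed version -/
theorem exists_two_measures (a : ℕ → ℝ) (ha : ∀ n, a n = a (2 * n + 1) + a (2 * n + 2)) (C : ℝ)
    (hC : ∀ ℓ, ∑ n ∈ Lv ℓ, |a n| ≤ C) :
    ∃ μ ν : Measure K, IsFiniteMeasure μ ∧ IsFiniteMeasure ν ∧
      ∀ n, a n = μ.real (Cyl n) - ν.real (Cyl n) := by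
  -- the sums of `|a|` over the descendants
  let v : ℕ → ℕ → ℝ := fun ℓ => Nat.rec (fun n => |a n|) (fun _ w n => w (2 * n + 1) + w (2 * n + 2)) ℓ
  have hv0 : ∀ n, v 0 n = |a n| := fun n => rfl
  have hvs : ∀ ℓ n, v (ℓ + 1) n = v ℓ (2 * n + 1) + v ℓ (2 * n + 2) := fun ℓ n => rfl
  have hnn : ∀ ℓ n, 0 ≤ v ℓ n := by
    intro ℓ
    induction ℓ with
    | zero => intro n; rw [hv0]; exact abs_nonneg _
    | succ ℓ ih => intro n; rw [hvs]; exact add_nonneg (ih _) (ih _)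
  have hmono : ∀ ℓ n, v ℓ n ≤ v (ℓ + 1) n := by
    intro ℓ
    induction ℓ with
    | zero =>
      intro n
      rw [hvs, hv0, hv0, hv0, ha n]
      exact abs_add_le _ _
    | succ ℓ ih =>
      intro n
      rw [hvs, hvs (ℓ + 1)]
      exact add_le_add (ih _) (ih _)
  have hsum : ∀ ℓ k, ∑ n ∈ Lv k, v ℓ n = ∑ n ∈ Lv (k + ℓ), |a n| := by
    intro ℓ
    induction ℓ with
    | zero => intro k; simp [hv0]
    | succ ℓ ih =>
      intro k
      have h1 : ∑ n ∈ Lv k, v (ℓ + 1) n = ∑ n ∈ Lv (k + 1), v ℓ n := by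
        rw [sum_Lv_succ]
      rw [h1, ih (k + 1)]
      congr 2
      ring
  have hbd : ∀ ℓ n, v ℓ n ≤ C := by
    intro ℓ n
    calc v ℓ n ≤ ∑ m ∈ Lv (lv n), v ℓ m :=
          Finset.single_le_sum (f := fun m => v ℓ m) (fun m _ => hnn ℓ m) (mem_Lv.2 rfl)
      _ = ∑ m ∈ Lv (lv n + ℓ), |a m| := hsum ℓ (lv n)
      _ ≤ C := hC _
  have hlim : ∀ n, Tendsto (fun ℓ => v ℓ n) atTop (nhds (⨆ ℓ, v ℓ n)) := fun n =>
    tendsto_atTop_ciSup (monotone_nat_of_le_succ fun ℓ => hmono ℓ n) ⟨C, by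
      rintro _ ⟨ℓ, rfl⟩; exact hbd ℓ n⟩
  have hadd : ∀ n, (⨆ ℓ, v ℓ n) = (⨆ ℓ, v ℓ (2 * n + 1)) + ⨆ ℓ, v ℓ (2 * n + 2) := by
    intro n
    have h1 := (hlim (2 * n + 1)).add (hlim (2 * n + 2))
    have h2 := (tendsto_add_atTop_iff_nat 1).2 (hlim n)
    exact tendsto_nhds_unique h2 h1
  have hge : ∀ n, |a n| ≤ ⨆ ℓ, v ℓ n := fun n =>
    le_ciSup (f := fun ℓ => v ℓ n) ⟨C, by rintro _ ⟨ℓ, rfl⟩; exact hbd ℓ n⟩ 0
  obtain ⟨μ, hμ, hμ2⟩ := exists_measure (fun n => ⨆ ℓ, v ℓ n)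
    (fun n => (abs_nonneg _).trans (hge n)) hadd
  obtain ⟨ν, hν, hν2⟩ := exists_measure (fun n => (⨆ ℓ, v ℓ n) - a n)
    (fun n => sub_nonneg.2 ((le_abs_self _).trans (hge n)))
    (fun n => by
      have h1 := hadd n
      have h2 := ha n
      linarith)
  refine ⟨μ, ν, hμ, hν, fun n => ?_⟩
  rw [hμ2, hν2]
  ring

end Pool.Agent.Work.MP_605a0d_an
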